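import Pool.Agent.H136R3.WA.LemA

set_option autoImplicit false

open MeasureTheory Filter Topology Set Metric Complex
open scoped NNReal ENNReal Real ComplexConjugate

namespace Pool.Agent.H136R3.WA

/-- averaging kernel over the disc of radius half the distance to `Y` -/
noncomputable def kk (Y : Set ℂ) (ζ w : ℂ) : ℝ :=
  (ball ζ (infDist ζ Y / 2)).indicator (fun _ => 4 / (π * infDist ζ Y ^ 2)) w

variable {Y : Set ℂ} {ε : ℝ}

theorem kk_nonneg (ζ w : ℂ) : 0 ≤ kk Y ζ w := by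
  unfold kk
  apply indicator_nonneg
  intro _ _
  positivity

theorem kk_of_mem {ζ w : ℂ} (h : dist w ζ < infDist ζ Y / 2) :
    kk Y ζ w = 4 / (π * infDist ζ Y ^ 2) := by
  unfold kk; rw [indicator_of_mem (by rw [mem_ball]; exact h)]

theorem kk_of_not {ζ w : ℂ} (h : ¬ dist w ζ < infDist ζ Y / 2) : kk Y ζ w = 0 := by
  unfold kk; rw [indicator_of_notMem (by rw [mem_ball]; exact h)]

theorem measurable_infDist_pt (Y : Set ℂ) : Measurable fun ζ : ℂ => infDist ζ Y :=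
  (continuous_infDist_pt Y).measurable

theorem measurable_kk (Y : Set ℂ) : Measurable fun p : ℂ × ℂ => kk Y p.1 p.2 := by
  have h1 : (fun p : ℂ × ℂ => kk Y p.1 p.2) = fun p : ℂ × ℂ =>
      {p : ℂ × ℂ | dist p.2 p.1 < infDist p.1 Y / 2}.indicator
        (fun p => 4 / (π * infDist p.1 Y ^ 2)) p := by
    funext p
    by_cases h : dist p.2 p.1 < infDist p.1 Y / 2
    · rw [kk_of_mem h, indicator_of_mem (show p ∈ {p : ℂ × ℂ | dist p.2 p.1 < infDist p.1 Y / 2} from h)]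
    · rw [kk_of_not h, indicator_of_notMem (show p ∉ {p : ℂ × ℂ | dist p.2 p.1 < infDist p.1 Y / 2} from h)]
  rw [h1]
  have hd := measurable_infDist_pt Y
  have hd2 : Measurable fun p : ℂ × ℂ => infDist p.1 Y := hd.comp measurable_fst
  refine Measurable.indicator (by fun_prop) ?_
  exact measurableSet_lt (by fun_prop) (by fun_prop)

theorem integrable_kk (ζ : ℂ) : Integrable (kk Y ζ) := by
  unfold kk
  exact (integrable_indicator_iff isOpen_ball.measurableSet).2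
    (integrableOn_const measure_ball_lt_top.ne)

theorem integral_kk {ζ : ℂ} (h : 0 < infDist ζ Y) : ∫ w, kk Y ζ w = 1 := by
  unfold kk
  rw [integral_indicator_const _ isOpen_ball.measurableSet, measureReal_def, Complex.volume_ball,
    smul_eq_mul, ENNReal.toReal_mul, ENNReal.toReal_pow, ENNReal.toReal_ofReal (by positivity)]
  simp only [ENNReal.coe_toReal, NNReal.coe_real_pi]
  have hpi := Real.pi_pos
  field_simp
  norm_num

theorem lintegral_kk_le (ζ : ℂ) : ∫⁻ w, ENNReal.ofReal (kk Y ζ w) ≤ 1 := by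
  rcases (infDist_nonneg (x := ζ) (s := Y)).eq_or_lt with h | h
  · have : ∀ w, kk Y ζ w = 0 := by
      intro w
      apply kk_of_not
      rw [← h]
      simp
    simp [this]
  · rw [← ofReal_integral_eq_lintegral_ofReal (integrable_kk ζ) (ae_of_all _ fun w => kk_nonneg ζ w),
      integral_kk h]
    simp

/-- the averaged density -/
noncomputable def q2 (M : Measure ℂ) (Y : Set ℂ) (F : ℂ → ℂ) (w : ℂ) : ℂ :=
  ∫ ζ, F ζ * (kk Y ζ w : ℂ) ∂M

section

variable {M : Measure ℂ} [IsFiniteMeasure M] {R lam : ℝ} {F : ℂ → ℂ}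

theorem measurable_q2 (hF : Measurable F) : Measurable (q2 M Y F) := by
  unfold q2
  have h : Measurable fun p : ℂ × ℂ => F p.2 * (kk Y p.2 p.1 : ℂ) := by
    have h1 := measurable_kk Y
    have h2 : Measurable fun p : ℂ × ℂ => kk Y p.2 p.1 := h1.comp measurable_swap
    fun_prop
  exact (h.stronglyMeasurable.integral_prod_right' (ν := M)).measurable

theorem q2_bound (hY : IsCompact Y) (hYn : Y.Nonempty) (hlam : 0 ≤ lam)
    (hg : ∀ z ∈ Y, ∀ r > 0, M (ball z r) ≤ ENNReal.ofReal (lam * r ^ 2))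
    (hF1 : ∀ ζ, ‖F ζ‖ ≤ 1) (w : ℂ) : ‖q2 M Y F w‖ ≤ 36 * lam / π := by
  have hpi := Real.pi_pos
  have hn : ∀ ζ, ‖F ζ * (kk Y ζ w : ℂ)‖ ≤ kk Y ζ w := by
    intro ζ
    rw [norm_mul, Complex.norm_real, Real.norm_of_nonneg (kk_nonneg ζ w)]
    exact mul_le_of_le_one_left (kk_nonneg ζ w) (hF1 ζ)
  have h1 : ‖q2 M Y F w‖ₑ ≤ ∫⁻ ζ, ENNReal.ofReal (kk Y ζ w) ∂M := by
    unfold q2
    refine (enorm_integral_le_lintegral_enorm _).trans (lintegral_mono fun ζ => ?_)
    rw [← ofReal_norm]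
    exact ENNReal.ofReal_le_ofReal (hn ζ)
  have h2 : ∫⁻ ζ, ENNReal.ofReal (kk Y ζ w) ∂M ≤ ENNReal.ofReal (36 * lam / π) := by
    rcases (infDist_nonneg (x := w) (s := Y)).eq_or_lt with h | h
    · have : ∀ ζ, kk Y ζ w = 0 := by
        intro ζ
        apply kk_of_not
        intro hlt
        have h3 := infDist_le_infDist_add_dist (s := Y) (x := ζ) (y := w)
        rw [← h, dist_comm] at h3
        have h4 : 0 ≤ dist w ζ := dist_nonneg
        linarith
      simp [this]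
    · obtain ⟨y, hy, hwy⟩ := hY.exists_infDist_eq_dist hYn w
      have h5 : ∀ ζ, ENNReal.ofReal (kk Y ζ w) ≤
          (ball w (infDist w Y)).indicator (fun _ => ENNReal.ofReal (9 / (π * infDist w Y ^ 2))) ζ := by
        intro ζ
        by_cases hlt : dist w ζ < infDist ζ Y / 2
        · have h3 := infDist_le_infDist_add_dist (s := Y) (x := ζ) (y := w)
          have h3' := infDist_le_infDist_add_dist (s := Y) (x := w) (y := ζ)
          rw [dist_comm] at h3
          rw [indicator_of_mem (by rw [mem_ball, dist_comm]; linarith), kk_of_mem hlt]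
          apply ENNReal.ofReal_le_ofReal
          have h6 : 0 < infDist ζ Y := by
            have : 0 ≤ dist w ζ := dist_nonneg
            linarith
          rw [div_le_div_iff₀ (by positivity) (by positivity)]
          have h7 : 2 * infDist w Y ≤ 3 * infDist ζ Y := by linarith
          have h8 : (2 * infDist w Y) ^ 2 ≤ (3 * infDist ζ Y) ^ 2 := by gcongr
          nlinarith [h8, hpi]
        · rw [kk_of_not hlt]
          simp
      calc ∫⁻ ζ, ENNReal.ofReal (kk Y ζ w) ∂M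
          ≤ ∫⁻ ζ, (ball w (infDist w Y)).indicator
              (fun _ => ENNReal.ofReal (9 / (π * infDist w Y ^ 2))) ζ ∂M := lintegral_mono h5
        _ = ENNReal.ofReal (9 / (π * infDist w Y ^ 2)) * M (ball w (infDist w Y)) := by
            rw [lintegral_indicator_const isOpen_ball.measurableSet]
        _ ≤ ENNReal.ofReal (9 / (π * infDist w Y ^ 2)) *
              ENNReal.ofReal (lam * (2 * infDist w Y) ^ 2) := by
            gcongr
            refine (measure_mono ?_).trans (hg y hy (2 * infDist w Y) (by positivity))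
            apply ball_subset_ball'
            rw [← hwy]
            linarith
        _ = ENNReal.ofReal (36 * lam / π) := by
            rw [← ENNReal.ofReal_mul (by positivity)]
            congr 1
            field_simp
            ring
  have h3 := h1.trans h2
  rw [← ofReal_norm] at h3
  exact (ENNReal.ofReal_le_ofReal_iff (by positivity)).1 h3

theorem q2_zero (hYn : Y.Nonempty) (hR : 0 ≤ R) (hYR : Y ⊆ closedBall 0 R)
    (hMR : M (closedBall 0 R)ᶜ = 0) {w : ℂ} (hw : w ∉ closedBall (0 : ℂ) (2 * R)) :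
    q2 M Y F w = 0 := by
  unfold q2
  apply integral_eq_zero_of_ae
  have h1 : ∀ᵐ ζ ∂M, ζ ∈ closedBall (0 : ℂ) R := by
    rw [ae_iff]; exact hMR
  filter_upwards [h1] with ζ hζ
  have : kk Y ζ w = 0 := by
    apply kk_of_not
    intro hlt
    obtain ⟨y, hy⟩ := hYn
    have h2 := infDist_le_dist_of_mem (x := ζ) hy
    have h3 := hYR hy
    rw [mem_closedBall, dist_zero_right] at hζ h3 hw
    have h4 : dist ζ y ≤ 2 * R := by
      rw [dist_eq_norm]
      refine (norm_sub_le _ _).trans ?_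
      linarith
    have h5 : ‖w‖ ≤ dist w ζ + ‖ζ‖ := by
      rw [dist_eq_norm]
      have : w = (w - ζ) + ζ := by ring
      conv_lhs => rw [this]
      exact norm_add_le _ _
    apply hw
    linarith
  simp [this]

/-- average of `HH` -/
noncomputable def AA (ε : ℝ) (Y : Set ℂ) (z ζ : ℂ) : ℂ := ∫ w, HH ε (z - w) * (kk Y ζ w : ℂ)

theorem integrable_Hkk (hε : 0 < ε) (z ζ : ℂ) : Integrable fun w => HH ε (z - w) * (kk Y ζ w : ℂ) := by
  have h1 : Integrable fun w => (kk Y ζ w : ℂ) := (integrable_kk ζ).ofReal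
  refine h1.bdd_mul (c := (ε ^ 2)⁻¹) ?_ (ae_of_all _ fun w => ?_)
  · exact ((continuous_HH hε).comp (by fun_prop)).aestronglyMeasurable
  · refine (norm_HH_le hε _).trans ?_
    apply inv_anti₀ (by positivity)
    unfold NN
    nlinarith [sq_nonneg ‖z - w‖]

theorem HH_sub_AA (hε : 0 < ε) (hYc : IsClosed Y) (hYn : Y.Nonempty) {z ζ : ℂ}
    (hz : z ∈ Y) (hζ : ζ ∉ Y) : ‖HH ε (z - ζ) - AA ε Y z ζ‖ ≤ 3 * infDist ζ Y / ‖z - ζ‖ ^ 3 := by
  have hd : 0 < infDist ζ Y := (hYc.notMem_iff_infDist_pos hYn).1 hζ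
  have hdz : infDist ζ Y ≤ ‖z - ζ‖ := by
    rw [← dist_eq_norm, dist_comm]
    exact infDist_le_dist_of_mem hz
  have h1 : HH ε (z - ζ) = ∫ w, HH ε (z - ζ) * (kk Y ζ w : ℂ) := by
    rw [integral_const_mul, integral_complex_ofReal, integral_kk hd]
    simp
  have h2 : Integrable fun w => HH ε (z - ζ) * (kk Y ζ w : ℂ) := (integrable_kk ζ).ofReal.const_mul _
  rw [h1]
  unfold AA
  rw [← integral_sub h2 (integrable_Hkk hε z ζ)]
  calc ‖∫ w, (HH ε (z - ζ) * (kk Y ζ w : ℂ) - HH ε (z - w) * (kk Y ζ w : ℂ))‖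
      ≤ ∫ w, (3 * infDist ζ Y / ‖z - ζ‖ ^ 3) * kk Y ζ w := by
        refine norm_integral_le_of_norm_le ((integrable_kk ζ).const_mul _) (ae_of_all _ fun w => ?_)
        rw [← sub_mul, norm_mul, Complex.norm_real, Real.norm_of_nonneg (kk_nonneg ζ w)]
        by_cases hlt : dist w ζ < infDist ζ Y / 2
        · refine mul_le_mul_of_nonneg_right ?_ (kk_nonneg ζ w)
          apply HH_sub_le hε hd hdz
          have : z - ζ - (z - w) = w - ζ := by ring
          rw [this, ← dist_eq_norm]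
          exact hlt.le
        · rw [kk_of_not hlt]
          simp
    _ = _ := by rw [integral_const_mul, integral_kk hd, mul_one]

theorem integrable_FHk (hε : 0 < ε) (hF : Measurable F) (hF1 : ∀ ζ, ‖F ζ‖ ≤ 1) (z : ℂ) :
    Integrable (fun p : ℂ × ℂ => F p.1 * (HH ε (z - p.2) * (kk Y p.1 p.2 : ℂ)))
      (M.prod volume) := by
  have hk := measurable_kk Y
  have hH : Measurable (HH ε) := (continuous_HH hε).measurable
  have hmeas : Measurable (fun p : ℂ × ℂ => F p.1 * (HH ε (z - p.2) * (kk Y p.1 p.2 : ℂ))) := by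
    fun_prop
  refine ⟨hmeas.aestronglyMeasurable, ?_⟩
  rw [hasFiniteIntegral_iff_enorm]
  have hb : ∀ p : ℂ × ℂ, ‖F p.1 * (HH ε (z - p.2) * (kk Y p.1 p.2 : ℂ))‖ₑ ≤
      ENNReal.ofReal (ε ^ 2)⁻¹ * ENNReal.ofReal (kk Y p.1 p.2) := by
    intro p
    rw [← ofReal_norm, ← ENNReal.ofReal_mul (by positivity)]
    apply ENNReal.ofReal_le_ofReal
    rw [norm_mul, norm_mul, Complex.norm_real, Real.norm_of_nonneg (kk_nonneg _ _)]
    have h1 : ‖HH ε (z - p.2)‖ ≤ (ε ^ 2)⁻¹ := by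
      refine (norm_HH_le hε _).trans ?_
      apply inv_anti₀ (by positivity)
      unfold NN
      nlinarith [sq_nonneg ‖z - p.2‖]
    have h2 := hF1 p.1
    have h3 := kk_nonneg (Y := Y) p.1 p.2
    calc ‖F p.1‖ * (‖HH ε (z - p.2)‖ * kk Y p.1 p.2) ≤ 1 * ((ε ^ 2)⁻¹ * kk Y p.1 p.2) := by gcongr
      _ = _ := one_mul _
  have hkm : Measurable fun p : ℂ × ℂ => ENNReal.ofReal (kk Y p.1 p.2) := hk.ennreal_ofReal
  calc ∫⁻ p, ‖F p.1 * (HH ε (z - p.2) * (kk Y p.1 p.2 : ℂ))‖ₑ ∂(M.prod volume)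
      ≤ ∫⁻ p, ENNReal.ofReal (ε ^ 2)⁻¹ * ENNReal.ofReal (kk Y p.1 p.2) ∂(M.prod volume) :=
        lintegral_mono hb
    _ = ENNReal.ofReal (ε ^ 2)⁻¹ * ∫⁻ ζ, ∫⁻ w, ENNReal.ofReal (kk Y ζ w) ∂volume ∂M := by
        rw [lintegral_const_mul _ hkm, lintegral_prod _ hkm.aemeasurable]
    _ ≤ ENNReal.ofReal (ε ^ 2)⁻¹ * ∫⁻ ζ, 1 ∂M := by
        gcongr with ζ
        exact lintegral_kk_le ζ
    _ < ⊤ := by
        rw [lintegral_one]
        exact ENNReal.mul_lt_top ENNReal.ofReal_lt_top (measure_lt_top _ _)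

theorem conv_q2 (hε : 0 < ε) (hF : Measurable F) (hF1 : ∀ ζ, ‖F ζ‖ ≤ 1) (z : ℂ) :
    ∫ w, HH ε (z - w) * q2 M Y F w = ∫ ζ, F ζ * AA ε Y z ζ ∂M := by
  have hI := integrable_FHk (M := M) (Y := Y) hε hF hF1 z
  unfold q2 AA
  calc ∫ w, HH ε (z - w) * ∫ ζ, F ζ * (kk Y ζ w : ℂ) ∂M
      = ∫ w, ∫ ζ, F ζ * (HH ε (z - w) * (kk Y ζ w : ℂ)) ∂M := by
        congr 1
        funext w
        rw [← integral_const_mul]
        congr 1
        funext ζ
        ring
    _ = ∫ ζ, ∫ w, F ζ * (HH ε (z - w) * (kk Y ζ w : ℂ)) ∂volume ∂M := by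
        rw [integral_integral_swap (f := fun ζ w => F ζ * (HH ε (z - w) * (kk Y ζ w : ℂ))) hI]
    _ = _ := by
        congr 1
        funext ζ
        rw [integral_const_mul]

theorem integrable_FAA (hε : 0 < ε) (hF : Measurable F) (hF1 : ∀ ζ, ‖F ζ‖ ≤ 1) (z : ℂ) :
    Integrable (fun ζ => F ζ * AA ε Y z ζ) M := by
  have hI := (integrable_FHk (M := M) (Y := Y) hε hF hF1 z).integral_prod_left
  refine hI.congr (ae_of_all _ fun ζ => ?_)
  simp only
  unfold AA
  rw [integral_const_mul]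

theorem integrable_FH (hε : 0 < ε) (hF : Measurable F) (hF1 : ∀ ζ, ‖F ζ‖ ≤ 1) (z : ℂ) :
    Integrable (fun ζ => HH ε (z - ζ) * F ζ) M := by
  have hH : Measurable (HH ε) := (continuous_HH hε).measurable
  refine Integrable.mono' (integrable_const ((ε ^ 2)⁻¹ : ℝ)) ?_ (ae_of_all _ fun ζ => ?_)
  · exact (by fun_prop : Measurable fun ζ => HH ε (z - ζ) * F ζ).aestronglyMeasurable
  · rw [norm_mul]
    have h1 : ‖HH ε (z - ζ)‖ ≤ (ε ^ 2)⁻¹ := by
      refine (norm_HH_le hε _).trans ?_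
      apply inv_anti₀ (by positivity)
      unfold NN
      nlinarith [sq_nonneg ‖z - ζ‖]
    calc _ ≤ (ε ^ 2)⁻¹ * 1 := by
          gcongr
          exact hF1 ζ
      _ = _ := mul_one _

theorem AA_eq_zero {z ζ : ℂ} (hζ : infDist ζ Y = 0) : AA ε Y z ζ = 0 := by
  unfold AA
  have : ∀ w, kk Y ζ w = 0 := by
    intro w
    apply kk_of_not
    rw [hζ]
    simp
  simp [this]

/-- constant -/
noncomputable def C3 : ℝ := ∫ u : ℂ, GG u ^ 3

theorem C3_nonneg : 0 ≤ C3 := integral_nonneg fun u => by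
  have := GG_pos u
  positivity

theorem lintegral_tail (hYc : IsClosed Y) (hYn : Y.Nonempty) {ζ : ℂ} (hζ : ζ ∉ Y) :
    ∫⁻ z in Y, ENNReal.ofReal (3 * infDist ζ Y / ‖z - ζ‖ ^ 3) ≤ ENNReal.ofReal (24 * C3) := by
  have hd : 0 < infDist ζ Y := (hYc.notMem_iff_infDist_pos hYn).1 hζ
  set d := infDist ζ Y with hd'
  have hint : Integrable fun u : ℂ => GG (d⁻¹ • u) ^ 3 :=
    integrable_GG_cube.comp_smul (inv_ne_zero hd.ne')
  calc ∫⁻ z in Y, ENNReal.ofReal (3 * d / ‖z - ζ‖ ^ 3)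
      ≤ ∫⁻ z in Y, ENNReal.ofReal (24 * (d⁻¹) ^ 2 * GG (d⁻¹ • (z - ζ)) ^ 3) := by
        apply setLIntegral_mono' hYc.measurableSet
        intro z hz
        apply ENNReal.ofReal_le_ofReal
        have hdz : d ≤ ‖z - ζ‖ := by
          rw [← dist_eq_norm, dist_comm]
          exact infDist_le_dist_of_mem hz
        have hz0 : 0 < ‖z - ζ‖ := hd.trans_le hdz
        unfold GG
        rw [norm_smul, Real.norm_of_nonneg (by positivity)]
        have h1 : 24 * (d⁻¹) ^ 2 * (1 + d⁻¹ * ‖z - ζ‖)⁻¹ ^ 3 = 24 * d / (d + ‖z - ζ‖) ^ 3 := by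
          field_simp
        rw [h1, div_le_div_iff₀ (by positivity) (by positivity)]
        have h2 : (d + ‖z - ζ‖) ^ 3 ≤ (2 * ‖z - ζ‖) ^ 3 := by gcongr; linarith
        calc 3 * d * (d + ‖z - ζ‖) ^ 3 ≤ 3 * d * (2 * ‖z - ζ‖) ^ 3 := by gcongr
          _ = _ := by ring
    _ ≤ ∫⁻ z, ENNReal.ofReal (24 * (d⁻¹) ^ 2 * GG (d⁻¹ • (z - ζ)) ^ 3) :=
        setLIntegral_le_lintegral _ _
    _ = ∫⁻ z, ENNReal.ofReal (24 * (d⁻¹) ^ 2 * GG (d⁻¹ • z) ^ 3) :=
        lintegral_sub_right_eq_self (μ := (volume : Measure ℂ))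
          (fun z => ENNReal.ofReal (24 * (d⁻¹) ^ 2 * GG (d⁻¹ • z) ^ 3)) ζ
    _ = ENNReal.ofReal (∫ z : ℂ, 24 * (d⁻¹) ^ 2 * GG (d⁻¹ • z) ^ 3) := by
        rw [ofReal_integral_eq_lintegral_ofReal (hint.const_mul _) (ae_of_all _ fun u => ?_)]
        have := GG_pos (d⁻¹ • u)
        simp only [Pi.zero_apply]
        positivity
    _ ≤ ENNReal.ofReal (24 * C3) := by
        apply ENNReal.ofReal_le_ofReal
        apply le_of_eq
        rw [integral_const_mul, Measure.integral_comp_smul volume (fun u : ℂ => GG u ^ 3) d⁻¹,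
          Complex.finrank_real_complex, smul_eq_mul, abs_of_nonneg (by positivity)]
        unfold C3
        field_simp

theorem le_one_add_sq (x : ℝ≥0∞) : x ≤ 1 + x ^ 2 := by
  rcases le_total x 1 with h | h
  · exact h.trans le_self_add
  · calc x = x * 1 := (mul_one x).symm
      _ ≤ x * x := by gcongr
      _ = x ^ 2 := (sq x).symm
      _ ≤ _ := le_add_self

/-- **Calderón–Zygmund type estimate.** -/
theorem cz (hY : IsCompact Y) (hYn : Y.Nonempty) (hlam : 0 ≤ lam) (hR : 0 ≤ R)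
    (hYR : Y ⊆ closedBall 0 R) (hMR : M (closedBall 0 R)ᶜ = 0)
    (hg : ∀ z ∈ Y, ∀ r > 0, M (ball z r) ≤ ENNReal.ofReal (lam * r ^ 2))
    {ρ : ℂ → ℝ≥0∞} (hρm : Measurable ρ) (hρ : M.restrict Y = (volume.restrict Y).withDensity ρ)
    (hρle : ∀ z ∈ Y, ρ z ≤ ENNReal.ofReal lam) :
    ∃ C : ℝ≥0∞, C < ⊤ ∧ ∀ ε : ℝ, 0 < ε → ε ≤ 1 → ∀ F : ℂ → ℂ, Measurable F → (∀ ζ, ‖F ζ‖ ≤ 1) →
      ∫⁻ z in Y, ‖∫ ζ, HH ε (z - ζ) * F ζ ∂M‖ₑ ≤ C := by
  have hYm : MeasurableSet Y := hY.isClosed.measurableSet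
  have hvol : ∀ r : ℝ, volume (closedBall (0 : ℂ) r) < ⊤ := fun r =>
    (isCompact_closedBall 0 r).measure_lt_top
  set L1 : ℝ≥0∞ := (ENNReal.ofReal lam * CP) * (ENNReal.ofReal lam * CP *
    volume (closedBall (0 : ℂ) R)) with hL1
  set L2 : ℝ≥0∞ := (ENNReal.ofReal (36 * lam / π) * CP) * (ENNReal.ofReal (36 * lam / π) * CP *
    volume (closedBall (0 : ℂ) (2 * R))) with hL2
  refine ⟨(volume Y + L1) + (volume Y + L2) + ENNReal.ofReal (24 * C3) * M univ, ?_, ?_⟩
  · have h1 : L1 < ⊤ := ENNReal.mul_lt_top (ENNReal.mul_lt_top ENNReal.ofReal_lt_top CP_lt_top)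
      (ENNReal.mul_lt_top (ENNReal.mul_lt_top ENNReal.ofReal_lt_top CP_lt_top) (hvol _))
    have h2 : L2 < ⊤ := ENNReal.mul_lt_top (ENNReal.mul_lt_top ENNReal.ofReal_lt_top CP_lt_top)
      (ENNReal.mul_lt_top (ENNReal.mul_lt_top ENNReal.ofReal_lt_top CP_lt_top) (hvol _))
    have h3 : ENNReal.ofReal (24 * C3) * M univ < ⊤ :=
      ENNReal.mul_lt_top ENNReal.ofReal_lt_top (measure_lt_top _ _)
    have h4 : volume Y < ⊤ := hY.measure_lt_top
    exact ENNReal.add_lt_top.2 ⟨ENNReal.add_lt_top.2 ⟨ENNReal.add_lt_top.2 ⟨h4, h1⟩,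
      ENNReal.add_lt_top.2 ⟨h4, h2⟩⟩, h3⟩
  intro ε hε hε1 F hF hF1
  have hHm : Measurable (HH ε) := (continuous_HH hε).measurable
  set Q1 : ℂ → ℂ := Y.indicator (fun ζ => (ρ ζ).toReal • F ζ) with hQ1
  have hQ1m : Measurable Q1 := by
    apply Measurable.indicator _ hYm
    exact (hρm.ennreal_toReal).smul hF
  have hQ1b : ∀ u, ‖Q1 u‖ ≤ lam := by
    intro u
    by_cases hu : u ∈ Y
    · rw [hQ1, indicator_of_mem hu, norm_smul, Real.norm_of_nonneg ENNReal.toReal_nonneg]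
      have h1 : (ρ u).toReal ≤ lam := by
        have := ENNReal.toReal_mono ENNReal.ofReal_ne_top (hρle u hu)
        rwa [ENNReal.toReal_ofReal hlam] at this
      calc _ ≤ lam * 1 := by
            gcongr
            exact hF1 u
        _ = lam := mul_one _
    · rw [hQ1, indicator_of_notMem hu, norm_zero]
      exact hlam
  have hQ10 : ∀ u, u ∉ closedBall (0 : ℂ) R → Q1 u = 0 := by
    intro u hu
    rw [hQ1, indicator_of_notMem fun h => hu (hYR h)]
  have e1 : ∀ z, ∫ ζ in Y, HH ε (z - ζ) * F ζ ∂M = ∫ ζ, HH ε (z - ζ) * Q1 ζ := by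
    intro z
    rw [hρ, integral_withDensity_eq_integral_toReal_smul hρm, ← integral_indicator hYm]
    · congr 1
      funext ζ
      by_cases hζ : ζ ∈ Y
      · rw [hQ1, indicator_of_mem hζ, indicator_of_mem hζ, mul_smul_comm]
      · rw [hQ1, indicator_of_notMem hζ, indicator_of_notMem hζ, mul_zero]
    · exact (ae_restrict_iff' hYm).2 (ae_of_all _ fun z hz => (hρle z hz).trans_lt
        ENNReal.ofReal_lt_top)
  have hQ2m : Measurable (q2 M Y F) := measurable_q2 hF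
  -- the decomposition
  have e2 : ∀ z, ∫ ζ, HH ε (z - ζ) * F ζ ∂M = (∫ ζ, HH ε (z - ζ) * Q1 ζ) +
      (∫ w, HH ε (z - w) * q2 M Y F w) + ∫ ζ in Yᶜ, F ζ * (HH ε (z - ζ) - AA ε Y z ζ) ∂M := by
    intro z
    rw [← integral_add_compl hYm (integrable_FH hε hF hF1 z), e1 z, add_assoc]
    congr 1
    rw [conv_q2 hε hF hF1 z, ← integral_add_compl hYm (integrable_FAA hε hF hF1 z)]
    have h1 : ∫ ζ in Y, F ζ * AA ε Y z ζ ∂M = 0 := by
      rw [← integral_indicator hYm]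
      apply integral_eq_zero_of_ae
      refine ae_of_all _ fun ζ => ?_
      by_cases hζ : ζ ∈ Y
      · rw [indicator_of_mem hζ, AA_eq_zero (infDist_zero_of_mem hζ)]
        simp
      · rw [indicator_of_notMem hζ]
        rfl
    rw [h1, zero_add]
    have i1 : Integrable (fun ζ => HH ε (z - ζ) * F ζ) (M.restrict Yᶜ) :=
      (integrable_FH hε hF hF1 z).restrict
    have i2 : Integrable (fun ζ => F ζ * AA ε Y z ζ) (M.restrict Yᶜ) :=
      (integrable_FAA hε hF hF1 z).restrict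
    have h2 : ∀ ζ, F ζ * (HH ε (z - ζ) - AA ε Y z ζ) =
        HH ε (z - ζ) * F ζ - F ζ * AA ε Y z ζ := fun ζ => by ring
    simp only [h2]
    rw [integral_sub i1 i2]
    ring
  have e3 : ∀ z ∈ Y, ‖∫ ζ, HH ε (z - ζ) * F ζ ∂M‖ₑ ≤ (1 + ‖∫ ζ, HH ε (z - ζ) * Q1 ζ‖ₑ ^ 2) +
      (1 + ‖∫ w, HH ε (z - w) * q2 M Y F w‖ₑ ^ 2) +
      ∫⁻ ζ in Yᶜ, ENNReal.ofReal (3 * infDist ζ Y / ‖z - ζ‖ ^ 3) ∂M := by
    intro z hz
    rw [e2 z]
    refine (enorm_add_le _ _).trans (add_le_add ((enorm_add_le _ _).trans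
      (add_le_add (le_one_add_sq _) (le_one_add_sq _))) ?_)
    refine (enorm_integral_le_lintegral_enorm _).trans ?_
    apply setLIntegral_mono' hYm.compl
    intro ζ hζ
    rw [← ofReal_norm]
    apply ENNReal.ofReal_le_ofReal
    rw [norm_mul]
    have h1 := HH_sub_AA hε hY.isClosed hYn hz hζ
    calc _ ≤ 1 * (3 * infDist ζ Y / ‖z - ζ‖ ^ 3) := by
          gcongr
          exact hF1 ζ
      _ = _ := one_mul _
  have hdm := measurable_infDist_pt Y
  have m1 : Measurable fun z => ‖∫ ζ, HH ε (z - ζ) * Q1 ζ‖ₑ ^ 2 := by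
    have : Measurable fun p : ℂ × ℂ => HH ε (p.1 - p.2) * Q1 p.2 := by fun_prop
    have := (this.stronglyMeasurable.integral_prod_right' (ν := volume)).measurable
    fun_prop
  have m2 : Measurable fun z => ‖∫ ζ, HH ε (z - ζ) * q2 M Y F ζ‖ₑ ^ 2 := by
    have : Measurable fun p : ℂ × ℂ => HH ε (p.1 - p.2) * q2 M Y F p.2 := by fun_prop
    have := (this.stronglyMeasurable.integral_prod_right' (ν := volume)).measurable
    fun_prop
  calc ∫⁻ z in Y, ‖∫ ζ, HH ε (z - ζ) * F ζ ∂M‖ₑ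
      ≤ ∫⁻ z in Y, ((1 + ‖∫ ζ, HH ε (z - ζ) * Q1 ζ‖ₑ ^ 2) +
      (1 + ‖∫ w, HH ε (z - w) * q2 M Y F w‖ₑ ^ 2) +
      ∫⁻ ζ in Yᶜ, ENNReal.ofReal (3 * infDist ζ Y / ‖z - ζ‖ ^ 3) ∂M) :=
        setLIntegral_mono' hYm e3
    _ = ((∫⁻ z in Y, (1 + ‖∫ ζ, HH ε (z - ζ) * Q1 ζ‖ₑ ^ 2)) +
      (∫⁻ z in Y, (1 + ‖∫ w, HH ε (z - w) * q2 M Y F w‖ₑ ^ 2))) +
      ∫⁻ z in Y, ∫⁻ ζ in Yᶜ, ENNReal.ofReal (3 * infDist ζ Y / ‖z - ζ‖ ^ 3) ∂M := by
        rw [lintegral_add_left (by fun_prop), lintegral_add_left (by fun_prop)]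
    _ ≤ (volume Y + L1) + (volume Y + L2) + ENNReal.ofReal (24 * C3) * M univ := by
        refine add_le_add (add_le_add ?_ ?_) ?_
        · rw [lintegral_add_left (by fun_prop), setLIntegral_one]
          gcongr
          exact (setLIntegral_le_lintegral _ _).trans (lemA hQ1m hlam hQ1b hR hQ10 hε hε1)
        · rw [lintegral_add_left (by fun_prop), setLIntegral_one]
          gcongr
          refine (setLIntegral_le_lintegral _ _).trans (lemA hQ2m (by positivity)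
            (q2_bound hY hYn hlam hg hF1) (by positivity) (fun u hu => q2_zero hYn hR hYR hMR hu) hε hε1)
        · rw [lintegral_lintegral_swap]
          · calc ∫⁻ ζ in Yᶜ, ∫⁻ z in Y, ENNReal.ofReal (3 * infDist ζ Y / ‖z - ζ‖ ^ 3) ∂volume ∂M
                ≤ ∫⁻ ζ in Yᶜ, ENNReal.ofReal (24 * C3) ∂M := by
                  apply setLIntegral_mono' hYm.compl
                  intro ζ hζ
                  exact lintegral_tail hY.isClosed hYn hζ
              _ ≤ ENNReal.ofReal (24 * C3) * M univ := by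
                  rw [setLIntegral_const]
                  gcongr
                  exact subset_univ _
          · apply Measurable.aemeasurable
            have : Measurable fun p : ℂ × ℂ =>
                ENNReal.ofReal (3 * infDist p.2 Y / ‖p.1 - p.2‖ ^ 3) := by
              have h2 : Measurable fun p : ℂ × ℂ => infDist p.2 Y := hdm.comp measurable_snd
              fun_prop
            exact this

end

end Pool.Agent.H136R3.WA
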