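import Pool.Agent.H136R3.WA.Pompeiu
import Pool.Agent.H136R3.QX

set_option autoImplicit false

open MeasureTheory Filter Topology Set Metric Complex
open scoped NNReal ENNReal Real ComplexConjugate

namespace Pool.Agent.H136R3.WA

/-- Cauchy transform -/
noncomputable def nuh (M : Measure ℂ) (θ : ℂ → ℂ) (z : ℂ) : ℂ := ∫ ζ, (ζ - z)⁻¹ * θ ζ ∂M

/-- potential -/
noncomputable def UU (M : Measure ℂ) (z : ℂ) : ℝ≥0∞ := ∫⁻ ζ, (‖ζ - z‖ₑ)⁻¹ ∂M

variable {M : Measure ℂ} [IsFiniteMeasure M] {θ : ℂ → ℂ} {R : ℝ}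

theorem measurable_UU : Measurable (UU M) := by
  unfold UU
  have h : Measurable fun p : ℂ × ℂ => (‖p.2 - p.1‖ₑ)⁻¹ := by fun_prop
  exact h.lintegral_prod_right'

theorem measurable_nuh (hθ : Measurable θ) : Measurable (nuh M θ) := by
  unfold nuh
  have h : Measurable fun p : ℂ × ℂ => (p.2 - p.1)⁻¹ * θ p.2 := by fun_prop
  exact (h.stronglyMeasurable.integral_prod_right' (ν := M)).measurable

theorem lintegral_UU_le (R : ℝ) (hR : 0 < R) :
    ∫⁻ z in ball (0 : ℂ) R, UU M z ≤ ENNReal.ofReal (3 * π * R) * M univ := by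
  unfold UU
  rw [lintegral_lintegral_swap]
  · calc ∫⁻ ζ, ∫⁻ z in ball (0 : ℂ) R, (‖ζ - z‖ₑ)⁻¹ ∂volume ∂M
        ≤ ∫⁻ ζ, ENNReal.ofReal (3 * π * R) ∂M := lintegral_mono fun ζ => lint_inv ζ 0 R hR
      _ = _ := by rw [lintegral_const]
  · apply Measurable.aemeasurable
    have h : Measurable fun p : ℂ × ℂ => (‖p.2 - p.1‖ₑ)⁻¹ := by fun_prop
    exact h

theorem ae_UU_lt_top : ∀ᵐ z ∂(volume : Measure ℂ), UU M z < ⊤ := by
  have h1 : ∀ n : ℕ, ∀ᵐ z ∂(volume : Measure ℂ), z ∈ ball (0 : ℂ) (n + 1) → UU M z < ⊤ := by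
    intro n
    have h2 : ∀ᵐ z ∂((volume : Measure ℂ).restrict (ball (0 : ℂ) (n + 1))), UU M z < ⊤ := by
      apply ae_lt_top measurable_UU
      refine ((lintegral_UU_le ((n : ℝ) + 1) (by positivity)).trans_lt ?_).ne
      exact ENNReal.mul_lt_top ENNReal.ofReal_lt_top (measure_lt_top _ _)
    exact (ae_restrict_iff' isOpen_ball.measurableSet).1 h2
  filter_upwards [ae_all_iff.2 h1] with z hz
  obtain ⟨n, hn⟩ := exists_nat_gt ‖z‖
  apply hz n
  rw [mem_ball, dist_zero_right]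
  linarith

theorem ne_of_UU {z : ℂ} (h : UU M z < ⊤) : ∀ᵐ ζ ∂M, ζ ≠ z := by
  have h1 := ae_lt_top (μ := M) (f := fun ζ => (‖ζ - z‖ₑ)⁻¹) (by fun_prop) h.ne
  filter_upwards [h1] with ζ hζ h2
  rw [h2, sub_self, enorm_zero, ENNReal.inv_zero] at hζ
  exact lt_irrefl _ hζ

theorem enorm_inv_le (u : ℂ) : ‖u⁻¹‖ₑ ≤ (‖u‖ₑ)⁻¹ := by
  by_cases hu : u = 0
  · simp [hu]
  · rw [enorm_inv hu]

theorem nuh_ne_zero (hθ : Measurable θ) (hθ1 : ∀ ζ, ‖θ ζ‖ ≤ 1) (hR : 0 ≤ R)
    (hMR : M (closedBall 0 R)ᶜ = 0) (hne : ∫ ζ, conj ζ * θ ζ ∂M ≠ 0) :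
    ¬ (nuh M θ =ᵐ[volume] 0) := by
  intro h0
  set B := ball (0 : ℂ) (R + 1) with hB
  have hBm : MeasurableSet B := isOpen_ball.measurableSet
  have hR1 : 0 < R + 1 := by linarith
  have hint : Integrable (fun p : ℂ × ℂ => (p.2 - p.1)⁻¹ * θ p.2)
      ((volume.restrict B).prod M) := by
    have hm : Measurable fun p : ℂ × ℂ => (p.2 - p.1)⁻¹ * θ p.2 := by fun_prop
    refine ⟨hm.aestronglyMeasurable, ?_⟩
    rw [hasFiniteIntegral_iff_enorm, lintegral_prod _ hm.enorm.aemeasurable]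
    calc ∫⁻ z in B, ∫⁻ ζ, ‖(ζ - z)⁻¹ * θ ζ‖ₑ ∂M ∂volume
        ≤ ∫⁻ z in B, UU M z := by
          apply lintegral_mono
          intro z
          apply lintegral_mono
          intro ζ
          simp only
          rw [enorm_mul]
          calc ‖(ζ - z)⁻¹‖ₑ * ‖θ ζ‖ₑ ≤ (‖ζ - z‖ₑ)⁻¹ * 1 := by
                gcongr
                · exact enorm_inv_le _
                · rw [← ofReal_norm]
                  exact (ENNReal.ofReal_le_ofReal (hθ1 ζ)).trans_eq ENNReal.ofReal_one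
            _ = _ := mul_one _
      _ ≤ ENNReal.ofReal (3 * π * (R + 1)) * M univ := lintegral_UU_le _ hR1
      _ < ⊤ := ENNReal.mul_lt_top ENNReal.ofReal_lt_top (measure_lt_top _ _)
  have h1 : ∫ z in B, nuh M θ z = 0 := by
    apply integral_eq_zero_of_ae
    exact ae_restrict_of_ae h0
  have h2 : ∫ z in B, nuh M θ z = ∫ ζ, π * (conj ζ * θ ζ) ∂M := by
    unfold nuh
    rw [integral_integral_swap (f := fun z ζ => (ζ - z)⁻¹ * θ ζ) hint]
    apply integral_congr_ae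
    have h3 : ∀ᵐ ζ ∂M, ζ ∈ closedBall (0 : ℂ) R := by rw [ae_iff]; exact hMR
    filter_upwards [h3] with ζ hζ
    rw [mem_closedBall, dist_zero_right] at hζ
    rw [integral_mul_const, pompeiu (by linarith : ‖ζ‖ < R + 1)]
    ring
  rw [h1, integral_const_mul] at h2
  rcases mul_eq_zero.1 h2.symm with h | h
  · exact Real.pi_ne_zero (by exact_mod_cast h)
  · exact hne h

theorem nuh_off {X : Set ℂ} (hann : ∀ f ∈ QX X, ∫ ζ, f ζ * θ ζ ∂M = 0) {z : ℂ} (hz : z ∉ X) :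
    nuh M θ z = 0 := hann _ (QX.inv_mem hz)

/-- growth sets -/
def EE' (M : Measure ℂ) (n : ℕ) : Set ℂ :=
  {z | ∀ q : ℚ, 0 < q → M (closedBall z (q : ℝ)) ≤ ENNReal.ofReal (n * (q : ℝ) ^ 2)}

theorem measurableSet_EE' (n : ℕ) : MeasurableSet (EE' M n) := by
  have h1 : EE' M n = ⋂ q : ℚ, {z | 0 < q → M (closedBall z (q : ℝ)) ≤
      ENNReal.ofReal (n * (q : ℝ) ^ 2)} := by
    ext z; simp [EE']
  rw [h1]
  apply MeasurableSet.iInter
  intro q
  by_cases hq : 0 < q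
  · have h2 : {z | 0 < q → M (closedBall z (q : ℝ)) ≤ ENNReal.ofReal (n * (q : ℝ) ^ 2)} =
        {z | M (closedBall z (q : ℝ)) ≤ ENNReal.ofReal (n * (q : ℝ) ^ 2)} := by
      ext z; simp [hq]
    rw [h2]
    apply measurableSet_le _ measurable_const
    have h3 : (fun z => M (closedBall z (q : ℝ))) =
        fun z => ∫⁻ ζ, ({p : ℂ × ℂ | dist p.2 p.1 ≤ (q : ℝ)}.indicator (fun _ => (1 : ℝ≥0∞)) (z, ζ)) ∂M := by
      funext z
      have h4 : (fun ζ => {p : ℂ × ℂ | dist p.2 p.1 ≤ (q : ℝ)}.indicator (fun _ => (1 : ℝ≥0∞)) (z, ζ)) =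
          (closedBall z (q : ℝ)).indicator (fun _ => (1 : ℝ≥0∞)) := by
        funext ζ
        by_cases h : dist ζ z ≤ (q : ℝ)
        · rw [indicator_of_mem (show (z, ζ) ∈ {p : ℂ × ℂ | dist p.2 p.1 ≤ (q : ℝ)} from h),
            indicator_of_mem (mem_closedBall.2 h)]
        · rw [indicator_of_notMem (show (z, ζ) ∉ {p : ℂ × ℂ | dist p.2 p.1 ≤ (q : ℝ)} from h),
            indicator_of_notMem (fun h' => h (mem_closedBall.1 h'))]
      rw [h4, lintegral_indicator_const isClosed_closedBall.measurableSet, one_mul]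
    rw [h3]
    have h5 : Measurable ({p : ℂ × ℂ | dist p.2 p.1 ≤ (q : ℝ)}.indicator (fun _ => (1 : ℝ≥0∞))) :=
      Measurable.indicator measurable_const (measurableSet_le (by fun_prop) measurable_const)
    exact h5.lintegral_prod_right'
  · have h2 : {z | 0 < q → M (closedBall z (q : ℝ)) ≤ ENNReal.ofReal (n * (q : ℝ) ^ 2)} = univ := by
      ext z; simp [hq]
    rw [h2]
    exact MeasurableSet.univ

theorem ae_growth : ∀ᵐ z ∂(volume : Measure ℂ), ∃ n : ℕ, z ∈ EE' M n ∧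
    M.rnDeriv volume z ≤ ENNReal.ofReal n := by
  filter_upwards [Besicovitch.ae_tendsto_rnDeriv M (volume : Measure ℂ),
    Measure.rnDeriv_lt_top M (volume : Measure ℂ)] with z hz hzt
  set D := (M.rnDeriv volume z).toReal with hD
  have hD0 : 0 ≤ D := ENNReal.toReal_nonneg
  have hDe : M.rnDeriv volume z = ENNReal.ofReal D := (ENNReal.ofReal_toReal hzt.ne).symm
  have h1 : M.rnDeriv volume z < ENNReal.ofReal (D + 1) := by
    rw [hDe]
    exact (ENNReal.ofReal_lt_ofReal_iff (by linarith)).2 (by linarith)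
  have h2 := hz.eventually (gt_mem_nhds h1)
  rw [eventually_nhdsWithin_iff, Metric.eventually_nhds_iff] at h2
  obtain ⟨r0, hr0, h3⟩ := h2
  -- the constant
  obtain ⟨n, hn⟩ := exists_nat_gt (max ((D + 1) * π) (max (M.real univ / (r0 / 2) ^ 2) D))
  have hn1 : (D + 1) * π ≤ n := (le_max_left _ _).trans hn.le
  have hn2 : M.real univ / (r0 / 2) ^ 2 ≤ n :=
    ((le_max_left _ _).trans (le_max_right _ _)).trans hn.le
  have hn3 : D ≤ n := ((le_max_right _ _).trans (le_max_right _ _)).trans hn.le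
  refine ⟨n, ?_, ?_⟩
  · intro q hq
    have hq' : (0 : ℝ) < q := by exact_mod_cast hq
    by_cases hqr : (q : ℝ) < r0
    · have h4 := h3 (y := (q : ℝ)) (by
        rw [Real.dist_eq, sub_zero, abs_of_pos hq']; exact hqr) hq'
      have h5 : volume (closedBall z (q : ℝ)) ≠ 0 := (measure_closedBall_pos _ _ hq').ne'
      have h6 : volume (closedBall z (q : ℝ)) ≠ ⊤ := measure_closedBall_lt_top.ne
      have h7 : M (closedBall z (q : ℝ)) ≤
          ENNReal.ofReal (D + 1) * volume (closedBall z (q : ℝ)) :=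
        (ENNReal.div_le_iff h5 h6).1 h4.le
      refine h7.trans ?_
      rw [Complex.volume_closedBall, ← ENNReal.ofReal_coe_nnreal, ← ENNReal.ofReal_pow hq'.le,
        ← ENNReal.ofReal_mul (by positivity), ← ENNReal.ofReal_mul (by positivity)]
      apply ENNReal.ofReal_le_ofReal
      rw [NNReal.coe_real_pi]
      calc (D + 1) * ((q : ℝ) ^ 2 * π) = ((D + 1) * π) * (q : ℝ) ^ 2 := by ring
        _ ≤ _ := by gcongr
    · push Not at hqr
      calc M (closedBall z (q : ℝ)) ≤ M univ := measure_mono (subset_univ _)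
        _ = ENNReal.ofReal (M.real univ) := by
            rw [measureReal_def, ENNReal.ofReal_toReal (measure_ne_top _ _)]
        _ ≤ ENNReal.ofReal (n * (q : ℝ) ^ 2) := by
            apply ENNReal.ofReal_le_ofReal
            have h8 : 0 < (r0 / 2) ^ 2 := by positivity
            rw [div_le_iff₀ h8] at hn2
            refine hn2.trans ?_
            gcongr
            linarith
  · rw [hDe]
    exact ENNReal.ofReal_le_ofReal hn3

/-- The good compact set. -/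
theorem exists_good {X : Set ℂ} (hθ : Measurable θ) (hθ1 : ∀ ζ, ‖θ ζ‖ ≤ 1) (hR : 0 ≤ R)
    (hMR : M (closedBall 0 R)ᶜ = 0) (hne : ∫ ζ, conj ζ * θ ζ ∂M ≠ 0)
    (hann : ∀ f ∈ QX X, ∫ ζ, f ζ * θ ζ ∂M = 0) :
    ∃ (Y : Set ℂ) (lam : ℝ) (ρ : ℂ → ℝ≥0∞), IsCompact Y ∧ Y ⊆ X ∧ 0 < volume Y ∧ 0 ≤ lam ∧
      (∀ z ∈ Y, nuh M θ z ≠ 0 ∧ UU M z < ⊤) ∧
      (∀ z ∈ Y, ∀ r > 0, M (ball z r) ≤ ENNReal.ofReal (lam * r ^ 2)) ∧ Measurable ρ ∧
      M.restrict Y = (volume.restrict Y).withDensity ρ ∧ ∀ z ∈ Y, ρ z ≤ ENNReal.ofReal lam := by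
  have hnn := nuh_ne_zero hθ hθ1 hR hMR hne
  obtain ⟨s, hsm, hs1, hs2⟩ := Measure.mutuallySingular_singularPart M (volume : Measure ℂ)
  have hnm := measurable_nuh (M := M) hθ
  have hrm : Measurable (M.rnDeriv volume) := Measure.measurable_rnDeriv _ _
  set D : ℕ → Set ℂ := fun n => {z | nuh M θ z ≠ 0} ∩ {z | UU M z < ⊤} ∩ s ∩ EE' M n ∩
    {z | M.rnDeriv volume z ≤ ENNReal.ofReal n} with hD
  have hDm : ∀ n, MeasurableSet (D n) := by
    intro n
    have m1 : MeasurableSet {z | nuh M θ z ≠ 0} := (hnm (measurableSet_singleton 0)).compl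
    have m2 : MeasurableSet {z | UU M z < ⊤} := measurableSet_lt measurable_UU measurable_const
    have m3 : MeasurableSet {z | M.rnDeriv volume z ≤ ENNReal.ofReal n} :=
      measurableSet_le hrm measurable_const
    exact (((m1.inter m2).inter hsm).inter (measurableSet_EE' n)).inter m3
  have hpos : ∃ n, volume (D n) ≠ 0 := by
    by_contra hcon
    push Not at hcon
    apply hnn
    have h1 : ∀ᵐ z ∂(volume : Measure ℂ), ∀ n, z ∉ D n := ae_all_iff.2 fun n => by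
      rw [ae_iff]
      simpa using hcon n
    have h2 : ∀ᵐ z ∂(volume : Measure ℂ), z ∈ s := by
      rw [ae_iff]; exact hs2
    filter_upwards [h1, h2, ae_UU_lt_top (M := M), ae_growth (M := M)] with z h3 h4 h5 h6
    obtain ⟨n, h7, h8⟩ := h6
    by_contra h9
    exact h3 n ⟨⟨⟨⟨h9, h5⟩, h4⟩, h7⟩, h8⟩
  obtain ⟨n, hn⟩ := hpos
  obtain ⟨Y, hYD, hYc, hYpos⟩ := (hDm n).exists_lt_isCompact (pos_iff_ne_zero.2 hn)
  have hYm : MeasurableSet Y := hYc.isClosed.measurableSet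
  refine ⟨Y, 4 * n, M.rnDeriv volume, hYc, ?_, hYpos, by positivity, ?_, ?_, hrm, ?_, ?_⟩
  · intro z hz
    by_contra hzX
    exact (hYD hz).1.1.1.1 (nuh_off hann hzX)
  · intro z hz
    exact ⟨(hYD hz).1.1.1.1, (hYD hz).1.1.1.2⟩
  · intro z hz r hr
    have h1 := (hYD hz).1.2
    obtain ⟨q, hq1, hq2⟩ := exists_rat_btwn (show r < 2 * r by linarith)
    have hq0 : (0 : ℝ) < q := hr.trans hq1
    calc M (ball z r) ≤ M (closedBall z (q : ℝ)) := by
          apply measure_mono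
          exact ball_subset_closedBall.trans (closedBall_subset_closedBall hq1.le)
      _ ≤ ENNReal.ofReal (n * (q : ℝ) ^ 2) := h1 q (by exact_mod_cast hq0)
      _ ≤ ENNReal.ofReal (4 * n * r ^ 2) := by
          apply ENNReal.ofReal_le_ofReal
          have : (q : ℝ) ^ 2 ≤ (2 * r) ^ 2 := by gcongr
          calc (n : ℝ) * (q : ℝ) ^ 2 ≤ n * (2 * r) ^ 2 := by gcongr
            _ = _ := by ring
  · conv_lhs => rw [Measure.haveLebesgueDecomposition_add M (volume : Measure ℂ)]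
    rw [Measure.restrict_add, restrict_withDensity hYm]
    have h1 : (M.singularPart volume).restrict Y = 0 := by
      rw [Measure.restrict_eq_zero]
      exact measure_mono_null (fun z hz => (hYD hz).1.1.2) hs1
    rw [h1, zero_add]
  · intro z hz
    refine ((hYD hz).2 : _ ≤ _).trans ?_
    apply ENNReal.ofReal_le_ofReal
    have : (0 : ℝ) ≤ n := by positivity
    linarith

end Pool.Agent.H136R3.WA
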