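import Pool.Agent.H136R3.QX

set_option autoImplicit false

open MeasureTheory Filter Topology Set Metric Complex
open scoped NNReal ENNReal Real ComplexConjugate

namespace Pool.Agent.H136R3.WA

/-- Riesz representation of a functional on `C(X, ℂ)` as a measure on `ℂ` times a bounded
function. -/
theorem rep {X : Set ℂ} (hX : IsCompact X) (Ψ : StrongDual ℂ C(X, ℂ)) :
    ∃ (M : Measure ℂ) (θ : ℂ → ℂ), IsFiniteMeasure M ∧ M Xᶜ = 0 ∧ Measurable θ ∧
      (∀ ζ, ‖θ ζ‖ ≤ 1) ∧ ∀ (h : ℂ → ℂ) (hh : ContinuousOn h X),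
        Ψ ⟨X.domRestrict h, hh.domRestrict⟩ = ∫ ζ, h ζ * θ ζ ∂M := by
  have : CompactSpace X := isCompact_iff_compactSpace.1 hX
  obtain ⟨μ, hfin, -, hμ⟩ := exists_dominating Ψ
  have hXm : MeasurableSet X := hX.isClosed.measurableSet
  let e : C(X, ℂ) →L[ℂ] Lp ℂ 2 μ := ContinuousMap.toLp 2 μ ℂ
  have hdense : DenseRange e := ContinuousMap.toLp_denseRange ℂ μ ℂ (by norm_num)
  have hbound : ∃ C : ℝ, ∀ h : C(X, ℂ), ‖Ψ h‖ ≤ C * ‖e h‖ := by
    refine ⟨(μ univ ^ ((1 : ℝ) / (1 : ℝ≥0∞).toReal - 1 / (2 : ℝ≥0∞).toReal)).toReal, fun h => ?_⟩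
    refine (hμ h).trans ?_
    have hm : AEStronglyMeasurable (fun x => h x) μ := h.continuous.aestronglyMeasurable
    have h1 := eLpNorm_le_eLpNorm_mul_rpow_measure_univ (p := 1) (q := 2) (by norm_num) hm
    have h2 : ∫ x, ‖h x‖ ∂μ = (eLpNorm (fun x => h x) 1 μ).toReal := by
      rw [eLpNorm_one_eq_lintegral_enorm, integral_norm_eq_lintegral_enorm hm]
    have h3 : ‖e h‖ = (eLpNorm (fun x => h x) 2 μ).toReal := by
      rw [Lp.norm_def]
      congr 1
      exact eLpNorm_congr_ae (ContinuousMap.coeFn_toLp (p := 2) (𝕜 := ℂ) μ h)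
    rw [h2, h3, mul_comm, ← ENNReal.toReal_mul]
    apply ENNReal.toReal_mono _ h1
    apply ENNReal.mul_ne_top
    · have h4 := (Lp.memLp (e h)).eLpNorm_lt_top
      rw [eLpNorm_congr_ae (ContinuousMap.coeFn_toLp (p := 2) (𝕜 := ℂ) μ h)] at h4
      exact h4.ne
    · exact (ENNReal.rpow_lt_top_of_nonneg (by norm_num) (measure_ne_top _ _)).ne
  let Φ : Lp ℂ 2 μ →L[ℂ] ℂ := (Ψ : C(X, ℂ) →ₗ[ℂ] ℂ).extendOfNorm (e : C(X, ℂ) →ₗ[ℂ] Lp ℂ 2 μ)
  have hΦ : ∀ h, Φ (e h) = Ψ h := LinearMap.extendOfNorm_eq hdense hbound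
  set g : Lp ℂ 2 μ := (InnerProductSpace.toDual ℂ (Lp ℂ 2 μ)).symm Φ with hg
  have hΨ : ∀ h : C(X, ℂ), Ψ h = ∫ x, h x * conj (g x) ∂μ := by
    intro h
    rw [← hΦ h, ← InnerProductSpace.toDual_symm_apply (y := Φ) (x := e h), L2.inner_def]
    apply integral_congr_ae
    filter_upwards [ContinuousMap.coeFn_toLp (p := 2) (𝕜 := ℂ) μ h] with x hx
    change inner ℂ (g x) ((e h : X → ℂ) x) = _
    rw [show (e h : X → ℂ) x = h x from hx]
    exact RCLike.inner_apply _ _
  have hgm : Measurable (g : X → ℂ) := (Lp.stronglyMeasurable g).measurable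
  have hgi : Integrable (g : X → ℂ) μ := (Lp.memLp g).integrable (by norm_num)
  -- the polar decomposition
  set θ0 : X → ℂ := fun x => conj (g x) / (‖g x‖ : ℂ) with hθ0
  have hθ0m : Measurable θ0 := by
    have := Complex.continuous_conj.measurable.comp hgm
    exact Measurable.div this (by fun_prop)
  have hθ01 : ∀ x, ‖θ0 x‖ ≤ 1 := by
    intro x
    rw [hθ0]
    simp only
    rw [norm_div, RCLike.norm_conj, Complex.norm_real, norm_norm]
    exact div_self_le_one _
  have hθ0g : ∀ x, (‖g x‖ : ℂ) * θ0 x = conj (g x) := by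
    intro x
    by_cases hx : g x = 0
    · simp [hθ0, hx]
    · rw [hθ0]
      simp only
      have : (‖g x‖ : ℂ) ≠ 0 := by
        exact_mod_cast (norm_ne_zero_iff.2 hx)
      field_simp
  set μ2 : Measure X := μ.withDensity fun x => ‖g x‖ₑ with hμ2
  have hμ2f : IsFiniteMeasure μ2 := isFiniteMeasure_withDensity hgi.hasFiniteIntegral.ne
  have hemb : MeasurableEmbedding (Subtype.val : X → ℂ) := MeasurableEmbedding.subtype_coe hXm
  refine ⟨μ2.map Subtype.val, Function.extend Subtype.val θ0 fun _ => 0, inferInstance, ?_, ?_, ?_, ?_⟩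
  · rw [Measure.map_apply hemb.measurable hXm.compl]
    have : (Subtype.val : X → ℂ) ⁻¹' Xᶜ = ∅ := by
      ext x; simp
    rw [this, measure_empty]
  · exact hemb.measurable_extend hθ0m measurable_const
  · intro ζ
    by_cases hζ : ζ ∈ X
    · have := Subtype.val_injective.extend_apply θ0 (fun _ => 0) ⟨ζ, hζ⟩
      simp only at this
      rw [this]
      exact hθ01 _
    · rw [Function.extend_apply' _ _ _ (by rintro ⟨a, rfl⟩; exact hζ a.2)]
      simp
  · intro h hh
    rw [hemb.integral_map, hΨ, hμ2, integral_withDensity_eq_integral_toReal_smul (by fun_prop)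
      (ae_of_all _ fun x => enorm_lt_top)]
    congr 1
    funext x
    rw [Subtype.val_injective.extend_apply, ← hθ0g x, toReal_enorm, Complex.real_smul]
    simp only [ContinuousMap.coe_mk, domRestrict_apply]
    ring

/-- separation of a point from a closed subspace -/
theorem separate {E : Type*} [NormedAddCommGroup E] [NormedSpace ℂ E] (S : Submodule ℂ E)
    (hS : IsClosed (S : Set E)) {x : E} (hx : x ∉ S) :
    ∃ Ψ : StrongDual ℂ E, (∀ s ∈ S, Ψ s = 0) ∧ Ψ x ≠ 0 := by
  have h1 : S.mkQ x ≠ 0 := by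
    rw [Submodule.mkQ_apply, Ne, Submodule.Quotient.mk_eq_zero]
    exact hx
  obtain ⟨f, hf⟩ := SeparatingDual.exists_ne_zero (R := ℂ) h1
  refine ⟨f.comp S.mkQL, ?_, ?_⟩
  · intro s hs
    have : S.mkQ s = 0 := by
      rw [Submodule.mkQ_apply, Submodule.Quotient.mk_eq_zero]
      exact hs
    rw [ContinuousLinearMap.comp_apply, Submodule.mkQL_apply, this, map_zero]
  · rw [ContinuousLinearMap.comp_apply, Submodule.mkQL_apply]
    exact hf

/-- A closed subalgebra of `C(X, ℂ)` containing `z` and `conj z` is everything. -/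
theorem eq_top_of_conj {X : Set ℂ} (hX : IsCompact X) (B : Subalgebra ℂ C(X, ℂ))
    (hB : IsClosed (B : Set C(X, ℂ)))
    (h1 : (⟨fun z => (z : ℂ), by fun_prop⟩ : C(X, ℂ)) ∈ B)
    (h2 : (⟨fun z => conj (z : ℂ), by fun_prop⟩ : C(X, ℂ)) ∈ B) : B = ⊤ := by
  have : CompactSpace X := isCompact_iff_compactSpace.1 hX
  set u : C(X, ℂ) := ⟨fun z => (z : ℂ), by fun_prop⟩ with hu
  let T := StarAlgebra.adjoin ℂ {u}
  have hT : T.topologicalClosure = ⊤ := by
    apply ContinuousMap.starSubalgebra_topologicalClosure_eq_top_of_separatesPoints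
    intro x y hxy
    refine ⟨u, ⟨u, StarAlgebra.subset_adjoin ℂ _ rfl, rfl⟩, ?_⟩
    intro h
    exact hxy (Subtype.ext h)
  have hTB : (T : Set C(X, ℂ)) ⊆ B := by
    have h3 : T.toSubalgebra ≤ B := by
      change (StarAlgebra.adjoin ℂ {u}).toSubalgebra ≤ B
      rw [StarAlgebra.adjoin_toSubalgebra]
      apply Algebra.adjoin_le
      rintro f (hf | hf)
      · rw [mem_singleton_iff] at hf
        rw [hf]
        exact h1
      · rw [Set.mem_star, mem_singleton_iff] at hf
        have h4 : f = star u := by rw [← hf, star_star]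
        rw [h4]
        have h5 : star u = (⟨fun z => conj (z : ℂ), by fun_prop⟩ : C(X, ℂ)) := by
          ext z; rfl
        rw [h5]
        exact h2
    exact h3
  rw [eq_top_iff]
  intro f _
  have h6 : f ∈ T.topologicalClosure := by rw [hT]; trivial
  have h7 : f ∈ closure (T : Set C(X, ℂ)) := h6
  exact closure_minimal hTB hB h7

end Pool.Agent.H136R3.WA
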