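import Pool.Agent.H136R3.WA.CZ
import Pool.Agent.H136R3.WA.Good
import Pool.Agent.H136R3.WA.Rep

set_option autoImplicit false

open MeasureTheory Filter Topology Set Metric Complex
open scoped NNReal ENNReal Real ComplexConjugate

namespace Pool.Agent.H136R3.WA

open Polynomial in
/-- division with the value of the derivative -/
theorem exists_div' {X : Set ℂ} {f : ℂ → ℂ} (hf : f ∈ QX X) {w : ℂ} (hw : w ∈ X) :
    ∃ h ∈ QX X, (∀ z ∈ X, f z - f w = (z - w) * h z) ∧ deriv f w = h w := by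
  obtain ⟨p, q, hq, hfq⟩ := hf
  have hroot : (Polynomial.X - C w) ∣ (p * C (q.eval w) - C (p.eval w) * q) := by
    rw [dvd_iff_isRoot, IsRoot.def]
    simp [mul_comm]
  obtain ⟨s, hs⟩ := hroot
  have hqw := hq w hw
  have hQ : (fun z => s.eval z / (q.eval z * q.eval w)) ∈ QX X := by
    refine ⟨s, q * C (q.eval w), fun z hz => ?_, fun z _ => ?_⟩
    · rw [eval_mul, eval_C]; exact mul_ne_zero (hq z hz) hqw
    · rw [eval_mul, eval_C]
  have hid : ∀ z, q.eval z ≠ 0 → f z - f w = (z - w) * (s.eval z / (q.eval z * q.eval w)) := by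
    intro z hqz
    have h1 := congrArg (fun r : ℂ[X] => r.eval z) hs
    simp only [eval_sub, eval_mul, eval_C, eval_X] at h1
    rw [hfq z hqz, hfq w hqw]
    rw [div_sub_div _ _ hqz hqw, mul_div_assoc', ← h1]
    ring
  refine ⟨fun z => s.eval z / (q.eval z * q.eval w), hQ, fun z hz => hid z (hq z hz), ?_⟩
  have hev : f =ᶠ[𝓝 w] fun z => f w + (z - w) * (s.eval z / (q.eval z * q.eval w)) := by
    have h2 : ∀ᶠ z in 𝓝 w, q.eval z ≠ 0 := q.continuous.continuousAt.eventually_ne hqw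
    filter_upwards [h2] with z hz
    rw [← hid z hz]
    ring
  have hd := QX.differentiableAt hQ hw
  have h3 : HasDerivAt (fun z => f w + (z - w) * (s.eval z / (q.eval z * q.eval w)))
      (1 * (s.eval w / (q.eval w * q.eval w)) +
        (w - w) * deriv (fun z => s.eval z / (q.eval z * q.eval w)) w) w :=
    (((hasDerivAt_id' w).sub_const w).fun_mul hd.hasDerivAt).const_add (f w)
  rw [hev.deriv_eq, h3.deriv]
  ring

variable {ε : ℝ}

theorem HH_neg (ε : ℝ) (u : ℂ) : HH ε (-u) = HH ε u := by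
  unfold HH
  rw [NN_neg, map_neg, neg_div, neg_sq]

theorem norm_HH_mul_le (hε : 0 < ε) (u : ℂ) : ‖HH ε u * u‖ ≤ ‖u‖⁻¹ := by
  by_cases hu : u = 0
  · simp [hu]
  · have hun : 0 < ‖u‖ := norm_pos_iff.2 hu
    rw [norm_mul, norm_HH_eq hε]
    have h1 := norm_KK_le' hε hu
    calc ‖KK ε u‖ ^ 2 * ‖u‖ ≤ (‖u‖⁻¹) ^ 2 * ‖u‖ := by gcongr
      _ = ‖u‖⁻¹ := by field_simp

theorem tendsto_HH_mul {e : ℕ → ℝ} (he : Tendsto e atTop (𝓝 0)) {u : ℂ} (hu : u ≠ 0) :
    Tendsto (fun n => HH (e n) u * u) atTop (𝓝 u⁻¹) := by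
  have h1 : Tendsto (fun n => (NN (e n) u : ℂ)) atTop (𝓝 (u * conj u)) := by
    have h2 : Tendsto (fun n => u * conj u + (e n : ℂ) ^ 2) atTop (𝓝 (u * conj u + ((0 : ℝ) : ℂ) ^ 2)) := by
      have h3 : Tendsto (fun n => (e n : ℂ)) atTop (𝓝 ((0 : ℝ) : ℂ)) :=
        (Complex.continuous_ofReal.tendsto 0).comp he
      exact (h3.pow 2).const_add _
    simp only [NN_eq]
    simpa using h2
  have hcu : conj u ≠ 0 := by simpa using hu
  have hne : u * conj u ≠ 0 := mul_ne_zero hu hcu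
  have h4 := (((tendsto_const_nhds (x := conj u)).div h1 hne).pow 2).mul_const u
  have h5 : (conj u / (u * conj u)) ^ 2 * u = u⁻¹ := by
    field_simp
  rw [h5] at h4
  exact h4

section

variable {M : Measure ℂ} [IsFiniteMeasure M] {θ : ℂ → ℂ} {X : Set ℂ}

/-- pointwise limit -/
theorem tendsto_S (hX : IsCompact X) (hMX : M Xᶜ = 0) (hθ : Measurable θ) (hθ1 : ∀ ζ, ‖θ ζ‖ ≤ 1)
    (hann : ∀ f ∈ QX X, ∫ ζ, f ζ * θ ζ ∂M = 0) {f : ℂ → ℂ} (hf : f ∈ QX X)
    {z : ℂ} (hz : z ∈ X) (hU : UU M z < ⊤) {e : ℕ → ℝ} (he0 : ∀ n, 0 < e n)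
    (he : Tendsto e atTop (𝓝 0)) :
    Tendsto (fun n => ∫ ζ, HH (e n) (z - ζ) * ((f ζ - f z) * θ ζ) ∂M) atTop
      (𝓝 (deriv f z * nuh M θ z)) := by
  obtain ⟨h1, hh1, hf1, hd1⟩ := exists_div' hf hz
  obtain ⟨h2, hh2, hf2, -⟩ := exists_div' hh1 hz
  have hXm : MeasurableSet X := hX.isClosed.measurableSet
  have haeX : ∀ᵐ ζ ∂M, ζ ∈ X := by rw [ae_iff]; exact hMX
  obtain ⟨K, hK⟩ := hX.exists_bound_of_continuousOn (QX.continuousOn hh1)
  have hne := ne_of_UU hU
  have hMr : M.restrict X = M := Measure.restrict_eq_self_of_ae_mem haeX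
  have hm1 : AEStronglyMeasurable h1 M := by
    rw [← hMr]; exact (QX.continuousOn hh1).aestronglyMeasurable hXm
  have hm2 : AEStronglyMeasurable h2 M := by
    rw [← hMr]; exact (QX.continuousOn hh2).aestronglyMeasurable hXm
  have hmf : AEStronglyMeasurable f M := by
    rw [← hMr]; exact (QX.continuousOn hf).aestronglyMeasurable hXm
  have hinv : Integrable (fun ζ => (ζ - z)⁻¹) M := by
    refine ⟨(by fun_prop : Measurable fun ζ : ℂ => (ζ - z)⁻¹).aestronglyMeasurable, ?_⟩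
    rw [hasFiniteIntegral_iff_enorm]
    exact (lintegral_mono fun ζ => enorm_inv_le _).trans_lt hU
  have hinvθ : Integrable (fun ζ => (ζ - z)⁻¹ * θ ζ) M := by
    refine hinv.mul_bdd (c := 1) hθ.aestronglyMeasurable (ae_of_all _ hθ1)
  have hnorm : Integrable (fun ζ => ‖ζ - z‖⁻¹) M := by
    have := hinv.norm
    simpa [norm_inv] using this
  -- the limit
  have hlim : ∫ ζ, (ζ - z)⁻¹ * (h1 ζ * θ ζ) ∂M = deriv f z * nuh M θ z := by
    obtain ⟨K2, hK2⟩ := hX.exists_bound_of_continuousOn (QX.continuousOn hh2)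
    have hi2 : Integrable (fun ζ => h2 ζ * θ ζ) M := by
      refine Integrable.mono' (integrable_const K2) (hm2.mul hθ.aestronglyMeasurable) ?_
      filter_upwards [haeX] with ζ hζ
      rw [norm_mul]
      have := hK2 ζ hζ
      calc ‖h2 ζ‖ * ‖θ ζ‖ ≤ ‖h2 ζ‖ * 1 := by
            gcongr
            exact hθ1 ζ
        _ ≤ K2 := by rw [mul_one]; exact this
    have h5 : ∫ ζ, (ζ - z)⁻¹ * (h1 ζ * θ ζ) ∂M =
        ∫ ζ, (h1 z * ((ζ - z)⁻¹ * θ ζ) + h2 ζ * θ ζ) ∂M := by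
      apply integral_congr_ae
      filter_upwards [haeX, hne] with ζ hζ hζz
      have h6 := hf2 ζ hζ
      have h7 : ζ - z ≠ 0 := sub_ne_zero.2 hζz
      have h8 : h1 ζ = h1 z + (ζ - z) * h2 ζ := by rw [← h6]; ring
      rw [h8]
      field_simp
    rw [h5, integral_add (hinvθ.const_mul _) hi2, integral_const_mul, hann h2 hh2, add_zero, hd1]
    rfl
  rw [← hlim]
  apply tendsto_integral_of_dominated_convergence (fun ζ => ‖ζ - z‖⁻¹ * K)
  · intro n
    have hHm : Measurable (HH (e n)) := (continuous_HH (he0 n)).measurable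
    refine AEStronglyMeasurable.mul ?_ ?_
    · exact (by fun_prop : Measurable fun ζ => HH (e n) (z - ζ)).aestronglyMeasurable
    · exact (hmf.sub aestronglyMeasurable_const).mul hθ.aestronglyMeasurable
  · exact hnorm.mul_const _
  · intro n
    filter_upwards [haeX] with ζ hζ
    have h6 := hf1 ζ hζ
    have h9 : HH (e n) (z - ζ) * ((f ζ - f z) * θ ζ) = (HH (e n) (ζ - z) * (ζ - z)) * (h1 ζ * θ ζ) := by
      rw [h6, ← HH_neg, neg_sub]
      ring
    rw [h9, norm_mul]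
    have h10 := norm_HH_mul_le (he0 n) (ζ - z)
    have h11 : ‖h1 ζ * θ ζ‖ ≤ K := by
      rw [norm_mul]
      calc ‖h1 ζ‖ * ‖θ ζ‖ ≤ ‖h1 ζ‖ * 1 := by
            gcongr
            exact hθ1 ζ
        _ ≤ K := by rw [mul_one]; exact hK ζ hζ
    gcongr
  · filter_upwards [haeX, hne] with ζ hζ hζz
    have h6 := hf1 ζ hζ
    have h9 : ∀ n, HH (e n) (z - ζ) * ((f ζ - f z) * θ ζ) =
        (HH (e n) (ζ - z) * (ζ - z)) * (h1 ζ * θ ζ) := by
      intro n
      rw [h6, ← HH_neg, neg_sub]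
      ring
    simp only [h9]
    exact (tendsto_HH_mul he (sub_ne_zero.2 hζz)).mul_const _

/-- the main estimate -/
theorem main_est (hX : IsCompact X) (hMX : M Xᶜ = 0) (hθ : Measurable θ) (hθ1 : ∀ ζ, ‖θ ζ‖ ≤ 1)
    (hann : ∀ f ∈ QX X, ∫ ζ, f ζ * θ ζ ∂M = 0) {Y : Set ℂ} (hY : IsCompact Y) (hYX : Y ⊆ X)
    (hYU : ∀ z ∈ Y, UU M z < ⊤) {C : ℝ≥0∞}
    (hC : ∀ ε : ℝ, 0 < ε → ε ≤ 1 → ∀ F : ℂ → ℂ, Measurable F → (∀ ζ, ‖F ζ‖ ≤ 1) →
      ∫⁻ z in Y, ‖∫ ζ, HH ε (z - ζ) * F ζ ∂M‖ₑ ≤ C)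
    {f : ℂ → ℂ} (hf : f ∈ QX X) {m : ℝ} (hm : 0 < m) (hfm : ∀ z ∈ X, ‖f z‖ ≤ m) :
    ∫⁻ z in Y, ‖deriv f z * nuh M θ z‖ₑ ≤ 2 * (ENNReal.ofReal m * C) := by
  have hXm : MeasurableSet X := hX.isClosed.measurableSet
  have hYm : MeasurableSet Y := hY.isClosed.measurableSet
  have haeX : ∀ᵐ ζ ∂M, ζ ∈ X := by rw [ae_iff]; exact hMX
  set e : ℕ → ℝ := fun n => 1 / ((n : ℝ) + 1) with he
  have he0 : ∀ n, 0 < e n := fun n => by rw [he]; positivity
  have he1 : ∀ n, e n ≤ 1 := fun n => by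
    rw [he]
    simp only
    rw [div_le_one (by positivity)]
    have : (0 : ℝ) ≤ n := Nat.cast_nonneg n
    linarith
  have het : Tendsto e atTop (𝓝 0) := tendsto_one_div_add_atTop_nhds_zero_nat
  -- the function `F`
  set F : ℂ → ℂ := fun ζ => (m : ℂ)⁻¹ * (X.indicator f ζ * θ ζ) with hF
  have hfi : Measurable (X.indicator f) := by
    classical
    have h := (QX.continuousOn hf).measurable_piecewise (g := (0 : ℂ → ℂ)) continuousOn_const hXm
    rwa [Set.piecewise_eq_indicator] at h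
  have hFm : Measurable F := by fun_prop
  have hF1 : ∀ ζ, ‖F ζ‖ ≤ 1 := by
    intro ζ
    rw [hF]
    simp only
    rw [norm_mul, norm_mul, norm_inv, Complex.norm_real, Real.norm_of_nonneg hm.le]
    have h1 : ‖X.indicator f ζ‖ ≤ m := by
      by_cases hζ : ζ ∈ X
      · rw [indicator_of_mem hζ]; exact hfm ζ hζ
      · rw [indicator_of_notMem hζ, norm_zero]; exact hm.le
    calc m⁻¹ * (‖X.indicator f ζ‖ * ‖θ ζ‖) ≤ m⁻¹ * (m * 1) := by
          gcongr
          exact hθ1 ζ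
      _ = 1 := by field_simp
  have hSeq : ∀ n, ∀ z, ∫ ζ, HH (e n) (z - ζ) * ((f ζ - f z) * θ ζ) ∂M =
      m * (∫ ζ, HH (e n) (z - ζ) * F ζ ∂M) - f z * ∫ ζ, HH (e n) (z - ζ) * θ ζ ∂M := by
    intro n z
    rw [← integral_const_mul, ← integral_const_mul, ← integral_sub]
    · apply integral_congr_ae
      filter_upwards [haeX] with ζ hζ
      have hmne : (m : ℂ) ≠ 0 := by exact_mod_cast hm.ne'
      simp only [hF]
      rw [indicator_of_mem hζ]
      field_simp
    · exact (integrable_FH (he0 n) hFm hF1 z).const_mul _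
    · exact (integrable_FH (he0 n) hθ hθ1 z).const_mul _
  have hmeas1 : ∀ n, Measurable fun z => ∫ ζ, HH (e n) (z - ζ) * F ζ ∂M := by
    intro n
    have hHm : Measurable (HH (e n)) := (continuous_HH (he0 n)).measurable
    have h : Measurable fun p : ℂ × ℂ => HH (e n) (p.1 - p.2) * F p.2 := by fun_prop
    exact (h.stronglyMeasurable.integral_prod_right' (ν := M)).measurable
  have hmeas2 : ∀ n, Measurable fun z => ∫ ζ, HH (e n) (z - ζ) * θ ζ ∂M := by
    intro n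
    have hHm : Measurable (HH (e n)) := (continuous_HH (he0 n)).measurable
    have h : Measurable fun p : ℂ × ℂ => HH (e n) (p.1 - p.2) * θ p.2 := by fun_prop
    exact (h.stronglyMeasurable.integral_prod_right' (ν := M)).measurable
  have hbound : ∀ n, ∫⁻ z in Y, ‖m * (∫ ζ, HH (e n) (z - ζ) * F ζ ∂M) -
      X.indicator f z * ∫ ζ, HH (e n) (z - ζ) * θ ζ ∂M‖ₑ ≤ 2 * (ENNReal.ofReal m * C) := by
    intro n
    have h1 := hmeas1 n
    have h2 := hmeas2 n
    calc ∫⁻ z in Y, ‖m * (∫ ζ, HH (e n) (z - ζ) * F ζ ∂M) -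
          X.indicator f z * ∫ ζ, HH (e n) (z - ζ) * θ ζ ∂M‖ₑ
        ≤ ∫⁻ z in Y, (ENNReal.ofReal m * ‖∫ ζ, HH (e n) (z - ζ) * F ζ ∂M‖ₑ +
            ENNReal.ofReal m * ‖∫ ζ, HH (e n) (z - ζ) * θ ζ ∂M‖ₑ) := by
          apply setLIntegral_mono' hYm
          intro z hz
          refine (enorm_sub_le).trans (add_le_add ?_ ?_)
          · rw [enorm_mul]
            gcongr
            rw [← ofReal_norm, Complex.norm_real, Real.norm_of_nonneg hm.le]
          · rw [enorm_mul, indicator_of_mem (hYX hz)]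
            gcongr
            rw [← ofReal_norm]
            exact ENNReal.ofReal_le_ofReal (hfm z (hYX hz))
      _ = ENNReal.ofReal m * (∫⁻ z in Y, ‖∫ ζ, HH (e n) (z - ζ) * F ζ ∂M‖ₑ) +
            ENNReal.ofReal m * ∫⁻ z in Y, ‖∫ ζ, HH (e n) (z - ζ) * θ ζ ∂M‖ₑ := by
          rw [lintegral_add_left (by fun_prop), lintegral_const_mul _ (by fun_prop),
            lintegral_const_mul _ (by fun_prop)]
      _ ≤ ENNReal.ofReal m * C + ENNReal.ofReal m * C := by
          gcongr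
          · exact hC (e n) (he0 n) (he1 n) F hFm hF1
          · exact hC (e n) (he0 n) (he1 n) θ hθ hθ1
      _ = _ := by ring
  -- Fatou
  calc ∫⁻ z in Y, ‖deriv f z * nuh M θ z‖ₑ
      = ∫⁻ z in Y, liminf (fun n => ‖m * (∫ ζ, HH (e n) (z - ζ) * F ζ ∂M) -
          X.indicator f z * ∫ ζ, HH (e n) (z - ζ) * θ ζ ∂M‖ₑ) atTop := by
        apply setLIntegral_congr_fun hYm
        intro z hz
        have h1 := tendsto_S hX hMX hθ hθ1 hann hf (hYX hz) (hYU z hz) he0 het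
        have h2 := h1.enorm
        simp only
        rw [← h2.liminf_eq]
        congr 1
        funext n
        rw [hSeq n z, indicator_of_mem (hYX hz)]
    _ ≤ liminf (fun n => ∫⁻ z in Y, ‖m * (∫ ζ, HH (e n) (z - ζ) * F ζ ∂M) -
          X.indicator f z * ∫ ζ, HH (e n) (z - ζ) * θ ζ ∂M‖ₑ) atTop := by
        apply lintegral_liminf_le
        intro n
        have h1 := hmeas1 n
        have h2 := hmeas2 n
        fun_prop
    _ ≤ 2 * (ENNReal.ofReal m * C) := by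
        apply liminf_le_of_le
        · isBoundedDefault
        · intro b hb
          obtain ⟨n, hn⟩ := hb.exists
          exact hn.trans (hbound n)

end

/-- **Existence of the measure.** -/
theorem exists_mu {X : Set ℂ} (hX : IsCompact X) (Ψ : StrongDual ℂ C(X, ℂ))
    (h0 : ∀ f : QX X, Ψ (restr X f) = 0)
    (h1 : Ψ ⟨fun z => conj (z : ℂ), by fun_prop⟩ ≠ 0) :
    ∃ μ : Measure X, IsFiniteMeasure μ ∧ μ univ ≠ 0 ∧ ∃ C : ℝ, 0 ≤ C ∧
      ∀ f ∈ QX X, ∀ m : ℝ, 0 ≤ m → (∀ z ∈ X, ‖f z‖ ≤ m) →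
        ∫ x : X, ‖deriv f x‖ ∂μ ≤ C * m := by
  have hXm : MeasurableSet X := hX.isClosed.measurableSet
  have : CompactSpace X := isCompact_iff_compactSpace.1 hX
  obtain ⟨M, θ, hfin, hMX, hθ, hθ1, hrep⟩ := rep hX Ψ
  have hann : ∀ f ∈ QX X, ∫ ζ, f ζ * θ ζ ∂M = 0 := by
    intro f hf
    rw [← hrep f (QX.continuousOn hf)]
    exact h0 ⟨f, hf⟩
  have hne : ∫ ζ, conj ζ * θ ζ ∂M ≠ 0 := by
    rw [← hrep (fun ζ => conj ζ) (by fun_prop)]
    exact h1
  obtain ⟨R, hR, hXR⟩ : ∃ R : ℝ, 0 ≤ R ∧ X ⊆ closedBall 0 R := by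
    obtain ⟨R, hR⟩ := hX.isBounded.subset_closedBall (0 : ℂ)
    exact ⟨max R 0, le_max_right _ _, hR.trans (closedBall_subset_closedBall (le_max_left _ _))⟩
  have hMR : M (closedBall 0 R)ᶜ = 0 := measure_mono_null (compl_subset_compl.2 hXR) hMX
  obtain ⟨Y, lam, ρ, hY, hYX, hYpos, hlam, hYg, hgr, hρm, hρ, hρle⟩ :=
    exists_good (X := X) hθ hθ1 hR hMR hne hann
  have hYn : Y.Nonempty := by
    rw [Set.nonempty_iff_ne_empty]
    rintro rfl
    simp at hYpos
  have hYm : MeasurableSet Y := hY.isClosed.measurableSet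
  obtain ⟨C, hCt, hC⟩ := cz hY hYn hlam hR (hYX.trans hXR) hMR hgr hρm hρ hρle
  have hest : ∀ f ∈ QX X, ∀ m : ℝ, 0 < m → (∀ z ∈ X, ‖f z‖ ≤ m) →
      ∫⁻ z in Y, ‖deriv f z * nuh M θ z‖ₑ ≤ 2 * (ENNReal.ofReal m * C) := fun f hf m hm hfm =>
    main_est hX hMX hθ hθ1 hann hY hYX (fun z hz => (hYg z hz).2) hC hf hm hfm
  have hnm := measurable_nuh (M := M) hθ
  -- finiteness of the integral of `nuh`
  have hfinY : ∫⁻ z in Y, ‖nuh M θ z‖ₑ < ⊤ := by
    have h2 := hest (fun z => z) (by simpa using QX.id_sub_mem X 0) (R + 1) (by linarith) (by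
      intro z hz
      have := hXR hz
      rw [mem_closedBall, dist_zero_right] at this
      linarith)
    simp only [deriv_id'', one_mul] at h2
    refine h2.trans_lt ?_
    exact ENNReal.mul_lt_top (by norm_num) (ENNReal.mul_lt_top ENNReal.ofReal_lt_top hCt)
  set μ0 : Measure ℂ := (volume.restrict Y).withDensity fun z => ‖nuh M θ z‖ₑ with hμ0
  have hμ0f : IsFiniteMeasure μ0 := isFiniteMeasure_withDensity hfinY.ne
  have hemb : MeasurableEmbedding (Subtype.val : X → ℂ) := MeasurableEmbedding.subtype_coe hXm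
  set μ1 : Measure X := μ0.comap Subtype.val with hμ1
  have hμ0X : μ0.restrict X = μ0 := by
    apply Measure.restrict_eq_self_of_ae_mem
    have h3 : ∀ᵐ z ∂(volume.restrict Y), z ∈ X := by
      filter_upwards [ae_restrict_mem hYm] with z hz using hYX hz
    exact (withDensity_absolutelyContinuous _ _).ae_le h3
  have hmap : μ1.map Subtype.val = μ0 := by
    rw [hμ1, hemb.map_comap, Subtype.range_coe, hμ0X]
  have hμ1f : IsFiniteMeasure μ1 := by
    constructor
    have h3 : μ1 univ = μ0 univ := by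
      rw [← hmap, Measure.map_apply hemb.measurable MeasurableSet.univ, preimage_univ]
    rw [h3]
    exact measure_lt_top _ _
  have hlint : ∀ g : ℂ → ℝ≥0∞, Measurable g → ∫⁻ x : X, g x ∂μ1 = ∫⁻ z in Y, ‖nuh M θ z‖ₑ * g z := by
    intro g hg
    rw [← hemb.lintegral_map, hmap, hμ0, lintegral_withDensity_eq_lintegral_mul _ hnm.enorm hg]
    rfl
  refine ⟨μ1, hμ1f, ?_, 2 * C.toReal, by positivity, ?_⟩
  · intro h3
    have h4 := hlint (fun _ => 1) measurable_const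
    rw [lintegral_one, h3] at h4
    have h5 := (lintegral_eq_zero_iff (by fun_prop)).1 h4.symm
    have h6 : ∀ᵐ z ∂(volume.restrict Y), False := by
      filter_upwards [h5, ae_restrict_mem hYm] with z hz hzY
      simp only [mul_one, Pi.zero_apply, enorm_eq_zero] at hz
      exact (hYg z hzY).1 hz
    rw [ae_iff] at h6
    simp at h6
    exact hYpos.ne' h6
  · intro f hf m hm hfm
    have hkey : ∀ m' : ℝ, 0 < m' → (∀ z ∈ X, ‖f z‖ ≤ m') →
        ∫ x : X, ‖deriv f x‖ ∂μ1 ≤ 2 * C.toReal * m' := by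
      intro m' hm' hfm'
      have hdm : Measurable (deriv f) := measurable_deriv f
      have hdm' : Measurable fun x : X => deriv f x := hdm.comp measurable_subtype_coe
      rw [integral_norm_eq_lintegral_enorm (f := fun x : X => deriv f x) hdm'.aestronglyMeasurable]
      have h3 : ∫⁻ x : X, ‖deriv f x‖ₑ ∂μ1 ≤ 2 * (ENNReal.ofReal m' * C) := by
        rw [hlint (fun z => ‖deriv f z‖ₑ) hdm.enorm]
        refine le_trans (le_of_eq ?_) (hest f hf m' hm' hfm')
        congr 1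
        funext z
        rw [enorm_mul, mul_comm]
      have h4 := ENNReal.toReal_mono (ENNReal.mul_lt_top (by norm_num)
        (ENNReal.mul_lt_top ENNReal.ofReal_lt_top hCt)).ne h3
      rw [ENNReal.toReal_mul, ENNReal.toReal_mul, ENNReal.toReal_ofReal hm'.le] at h4
      calc _ ≤ _ := h4
        _ = _ := by norm_num; ring
    have hlim : Tendsto (fun δ : ℝ => 2 * C.toReal * (m + δ)) (𝓝[>] 0) (𝓝 (2 * C.toReal * (m + 0))) := by
      apply tendsto_nhdsWithin_of_tendsto_nhds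
      exact (by fun_prop : Continuous fun δ : ℝ => 2 * C.toReal * (m + δ)).tendsto 0
    rw [add_zero] at hlim
    apply ge_of_tendsto hlim
    filter_upwards [self_mem_nhdsWithin] with δ hδ
    have hδ0 : 0 < δ := hδ
    apply hkey (m + δ) (by linarith)
    intro z hz
    have := hfm z hz
    linarith

end Pool.Agent.H136R3.WA
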