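import Pool.Agent.H136R3.WA.Est

set_option autoImplicit false

open MeasureTheory Filter Topology Set Metric Complex
open scoped NNReal ENNReal Real ComplexConjugate BoundedContinuousFunction

namespace Pool.Agent.H136R3.WA

theorem abstract_ext {Q : Type*} [AddCommGroup Q] [Module ℂ Q] {E : Type*} [NormedAddCommGroup E]
    [NormedSpace ℂ E] (e : Q →ₗ[ℂ] E) (hd : DenseRange e) (l : Q →ₗ[ℂ] (E →L[ℂ] ℂ))
    (hb : ∃ C : ℝ, ∀ q, ‖l q‖ ≤ C * ‖e q‖) : ∃ D : E →L[ℂ] (E →L[ℂ] ℂ), ∀ q, D (e q) = l q :=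
  ⟨l.extendOfNorm e, LinearMap.extendOfNorm_eq hd hb⟩

/-- the rational functions in the space of bounded continuous functions -/
def SS (X : Set ℂ) : Set (X →ᵇ ℂ) :=
  {f : ↥X →ᵇ ℂ | ∃ p q : Polynomial ℂ, (∀ z ∈ X, q.eval z ≠ 0) ∧
    ∀ z : ↥X, f z = p.eval (z : ℂ) / q.eval (z : ℂ)}

section

variable {X : Set ℂ} [CompactSpace X]

/-- embedding of the rational functions -/
noncomputable def phi (X : Set ℂ) [CompactSpace X] : QX X →ₐ[ℂ] (X →ᵇ ℂ) :=
  AlgHom.ofLinearMap
    { toFun := fun f => BoundedContinuousFunction.mkOfCompact (restr X f)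
      map_add' := fun f g => by ext z; rfl
      map_smul' := fun c f => by ext z; rfl }
    (by ext z; rfl) (fun f g => by ext z; rfl)

theorem phi_apply (f : QX X) (z : X) : phi X f z = f.1 z := rfl

theorem phi_mem_SS (f : QX X) : phi X f ∈ SS X := by
  obtain ⟨p, q, hq, hfq⟩ := f.2
  exact ⟨p, q, hq, fun z => hfq z (hq z z.2)⟩

theorem SS_sub_range : SS X ⊆ ((phi X).range : Set (X →ᵇ ℂ)) := by
  rintro f ⟨p, q, hq, hf⟩
  refine ⟨⟨fun z => p.eval z / q.eval z, p, q, hq, fun z _ => rfl⟩, ?_⟩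
  ext z
  exact (hf z).symm

theorem adjoin_eq : Algebra.adjoin ℂ (SS X) = (phi X).range := by
  apply le_antisymm
  · exact Algebra.adjoin_le SS_sub_range
  · rintro _ ⟨f, rfl⟩
    exact Algebra.subset_adjoin (phi_mem_SS f)

variable {A : Subalgebra ℂ (X →ᵇ ℂ)}

theorem phi_mem (hA : A = (Algebra.adjoin ℂ (SS X)).topologicalClosure) (f : QX X) :
    phi X f ∈ A := by
  rw [hA]
  exact Subalgebra.le_topologicalClosure _ (Algebra.subset_adjoin (phi_mem_SS f))

/-- the map into `A` -/
noncomputable def ee (hA : A = (Algebra.adjoin ℂ (SS X)).topologicalClosure) : QX X →ₗ[ℂ] A where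
  toFun f := ⟨phi X f, phi_mem hA f⟩
  map_add' f g := by
    apply Subtype.ext
    exact map_add (phi X) f g
  map_smul' c f := by
    apply Subtype.ext
    exact map_smul (phi X) c f

theorem ee_mul (hA : A = (Algebra.adjoin ℂ (SS X)).topologicalClosure) (f g : QX X) :
    ee hA f * ee hA g = ee hA (f * g) := by
  apply Subtype.ext
  exact (map_mul (phi X) f g).symm

theorem denseRange_ee (hA : A = (Algebra.adjoin ℂ (SS X)).topologicalClosure) :
    DenseRange (ee hA) := by
  intro a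
  rw [closure_subtype]
  have h1 : (a : X →ᵇ ℂ) ∈ (Algebra.adjoin ℂ (SS X)).topologicalClosure := by
    rw [← hA]; exact a.2
  have h2 : (a : X →ᵇ ℂ) ∈ closure ((Algebra.adjoin ℂ (SS X) : Subalgebra ℂ (X →ᵇ ℂ)) :
      Set (X →ᵇ ℂ)) := h1
  refine closure_mono ?_ h2
  rw [adjoin_eq]
  rintro _ ⟨f, rfl⟩
  exact ⟨ee hA f, ⟨f, rfl⟩, rfl⟩

variable {μ : Measure X} [IsFiniteMeasure μ]

theorem continuous_dv (f : QX X) : Continuous fun x : X => deriv f.1 x :=
  (QX.continuousOn_deriv f.2).domRestrict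

theorem integrable_cont {g : X → ℂ} (hg : Continuous g) : Integrable g μ :=
  (BoundedContinuousFunction.mkOfCompact ⟨g, hg⟩).integrable _

theorem integrable_dv (f : QX X) (h : X →ᵇ ℂ) : Integrable (fun x : X => deriv f.1 x * h x) μ :=
  integrable_cont ((continuous_dv f).mul h.continuous)

theorem bound_dv (f : QX X) (g : X →ᵇ ℂ) :
    ‖∫ x : X, deriv f.1 x * g x ∂μ‖ ≤ (∫ x : X, ‖deriv f.1 x‖ ∂μ) * ‖g‖ := by
  rw [← integral_mul_const]
  refine norm_integral_le_of_norm_le ((integrable_cont (continuous_dv f)).norm.mul_const _)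
    (ae_of_all _ fun x => ?_)
  rw [norm_mul]
  gcongr
  exact g.norm_coe_le_norm x

/-- the functional attached to a rational function -/
noncomputable def ll (A : Subalgebra ℂ (X →ᵇ ℂ)) (μ : Measure X) [IsFiniteMeasure μ] :
    QX X →ₗ[ℂ] (A →L[ℂ] ℂ) where
  toFun f := LinearMap.mkContinuous
    { toFun := fun g : A => ∫ x, deriv f.1 x * (g : X →ᵇ ℂ) x ∂μ
      map_add' := fun g h => by
        rw [← integral_add (integrable_dv f g) (integrable_dv f h)]
        congr 1
        funext x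
        exact mul_add _ _ _
      map_smul' := fun c g => by
        rw [RingHom.id_apply, smul_eq_mul, ← integral_const_mul]
        congr 1
        funext x
        change deriv f.1 x * (c • (g : X →ᵇ ℂ) x) = _
        rw [smul_eq_mul]
        ring } (∫ x, ‖deriv f.1 x‖ ∂μ) (fun g => bound_dv f g)
  map_add' f g := by
    ext h
    change ∫ x, deriv (f.1 + g.1) x * (h : X →ᵇ ℂ) x ∂μ =
      (∫ x, deriv f.1 x * (h : X →ᵇ ℂ) x ∂μ) + ∫ x, deriv g.1 x * (h : X →ᵇ ℂ) x ∂μ
    rw [← integral_add (integrable_dv f h) (integrable_dv g h)]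
    congr 1
    funext x
    rw [deriv_add (QX.differentiableAt f.2 x.2) (QX.differentiableAt g.2 x.2), add_mul]
  map_smul' c f := by
    ext h
    change ∫ x, deriv (c • f.1) x * (h : X →ᵇ ℂ) x ∂μ =
      c • ∫ x, deriv f.1 x * (h : X →ᵇ ℂ) x ∂μ
    rw [← integral_smul]
    congr 1
    funext x
    rw [deriv_const_smul _ (QX.differentiableAt f.2 x.2), smul_mul_assoc]

theorem ll_apply (f : QX X) (g : A) : ll A μ f g = ∫ x, deriv f.1 x * (g : X →ᵇ ℂ) x ∂μ := rfl

theorem norm_ll_le (f : QX X) : ‖ll A μ f‖ ≤ ∫ x, ‖deriv f.1 x‖ ∂μ :=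
  ContinuousLinearMap.opNorm_le_bound _ (integral_nonneg fun x => norm_nonneg _)
    fun g => bound_dv f g

theorem exists_deriv (hA : A = (Algebra.adjoin ℂ (SS X)).topologicalClosure) (hμ : μ univ ≠ 0)
    {C : ℝ} (hC : ∀ f ∈ QX X, ∀ m : ℝ, 0 ≤ m → (∀ z ∈ X, ‖f z‖ ≤ m) →
      ∫ x : X, ‖deriv f x‖ ∂μ ≤ C * m) :
    ∃ D : A →L[ℂ] (A →L[ℂ] ℂ), (∀ a b c : A, D (a * b) c = D a (b * c) + D b (c * a)) ∧ D ≠ 0 := by
  have hb : ∃ C : ℝ, ∀ f : QX X, ‖ll A μ f‖ ≤ C * ‖ee hA f‖ := by
    refine ⟨C, fun f => (norm_ll_le f).trans ?_⟩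
    apply hC f.1 f.2 _ (norm_nonneg _)
    intro z hz
    exact (phi X f).norm_coe_le_norm ⟨z, hz⟩
  obtain ⟨D, hD⟩ := abstract_ext (ee hA) (denseRange_ee hA) (ll A μ) hb
  refine ⟨D, ?_, ?_⟩
  · intro a b c
    refine (denseRange_ee hA).induction_on₂ (p := fun a b => D (a * b) c = D a (b * c) + D b (c * a))
      ?_ ?_ a b
    · apply isClosed_eq
      · fun_prop
      · fun_prop
    · intro f g
      rw [ee_mul, hD, hD, hD, ll_apply, ll_apply, ll_apply]
      have h1 : Continuous fun x : X => deriv f.1 x * ((ee hA g * c : A) : X →ᵇ ℂ) x :=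
        (continuous_dv f).mul (BoundedContinuousFunction.continuous _)
      have h2 : Continuous fun x : X => deriv g.1 x * ((c * ee hA f : A) : X →ᵇ ℂ) x :=
        (continuous_dv g).mul (BoundedContinuousFunction.continuous _)
      rw [← integral_add (integrable_cont h1) (integrable_cont h2)]
      congr 1
      funext x
      change deriv (f.1 * g.1) x * (c : X →ᵇ ℂ) x =
        deriv f.1 x * (g.1 x * (c : X →ᵇ ℂ) x) + deriv g.1 x * ((c : X →ᵇ ℂ) x * f.1 x)
      rw [deriv_mul (QX.differentiableAt f.2 x.2) (QX.differentiableAt g.2 x.2)]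
      ring
  · intro h0
    have h1 : (fun z : ℂ => z) ∈ QX X := by simpa using QX.id_sub_mem X 0
    have h2 := hD ⟨fun z => z, h1⟩
    rw [h0] at h2
    have h3 := congrArg (fun L : A →L[ℂ] ℂ => L 1) h2
    simp only [ll_apply, ContinuousLinearMap.zero_apply] at h3
    have h4 : (fun x : X => deriv (fun z : ℂ => z) (x : ℂ) * ((1 : A) : X →ᵇ ℂ) x) =
        fun _ => (1 : ℂ) := by
      funext x
      rw [deriv_id'']
      change (1 : ℂ) * 1 = 1
      ring
    rw [h4, integral_const] at h3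
    have h5 : μ.real univ ≠ 0 := by
      rw [measureReal_def]
      exact (ENNReal.toReal_ne_zero).2 ⟨hμ, measure_ne_top _ _⟩
    apply h5
    have h6 := h3.symm
    rw [Complex.real_smul, mul_one] at h6
    exact_mod_cast h6

end

/-- the whole statement -/
theorem main (X : Set ℂ) (hX : IsCompact X) (A : Subalgebra ℂ (X →ᵇ ℂ))
    (hA : A = (Algebra.adjoin ℂ (SS X)).topologicalClosure)
    (hD : ∀ D : A →L[ℂ] (A →L[ℂ] ℂ),
      (∀ a b c : A, D (a * b) c = D a (b * c) + D b (c * a)) → D = 0) : A = ⊤ := by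
  have : CompactSpace X := isCompact_iff_compactSpace.1 hX
  by_contra hne
  let B : Subalgebra ℂ C(X, ℂ) :=
    { carrier := {f | BoundedContinuousFunction.mkOfCompact f ∈ A}
      mul_mem' := fun {f g} hf hg => by
        have h : BoundedContinuousFunction.mkOfCompact (f * g) =
            BoundedContinuousFunction.mkOfCompact f * BoundedContinuousFunction.mkOfCompact g := by
          ext z; rfl
        change BoundedContinuousFunction.mkOfCompact (f * g) ∈ A
        rw [h]
        exact mul_mem hf hg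
      add_mem' := fun {f g} hf hg => by
        have h : BoundedContinuousFunction.mkOfCompact (f + g) =
            BoundedContinuousFunction.mkOfCompact f + BoundedContinuousFunction.mkOfCompact g := by
          ext z; rfl
        change BoundedContinuousFunction.mkOfCompact (f + g) ∈ A
        rw [h]
        exact add_mem hf hg
      algebraMap_mem' := fun c => by
        have h : BoundedContinuousFunction.mkOfCompact (algebraMap ℂ C(X, ℂ) c) =
            algebraMap ℂ (X →ᵇ ℂ) c := by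
          ext z; rfl
        change BoundedContinuousFunction.mkOfCompact (algebraMap ℂ C(X, ℂ) c) ∈ A
        rw [h]
        exact A.algebraMap_mem c }
  have hAc : IsClosed (A : Set (X →ᵇ ℂ)) := by
    rw [hA]; exact Subalgebra.isClosed_topologicalClosure _
  have hBc : IsClosed (B : Set C(X, ℂ)) :=
    hAc.preimage (ContinuousMap.linearIsometryBoundedOfCompact X ℂ ℂ).continuous
  have hrB : ∀ f : QX X, restr X f ∈ B := fun f => phi_mem hA f
  have hid : (⟨fun z => (z : ℂ), by fun_prop⟩ : C(X, ℂ)) ∈ B := by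
    have h1 : (fun z : ℂ => z) ∈ QX X := by simpa using QX.id_sub_mem X 0
    exact hrB ⟨_, h1⟩
  have hconj : (⟨fun z => conj (z : ℂ), by fun_prop⟩ : C(X, ℂ)) ∉ B := by
    intro hc
    have hB := eq_top_of_conj hX B hBc hid hc
    apply hne
    rw [eq_top_iff]
    intro g _
    have h1 : g.toContinuousMap ∈ B := by rw [hB]; trivial
    have h2 : BoundedContinuousFunction.mkOfCompact g.toContinuousMap = g := by ext z; rfl
    have h3 : BoundedContinuousFunction.mkOfCompact g.toContinuousMap ∈ A := h1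
    rwa [h2] at h3
  obtain ⟨Ψ, hΨ0, hΨ1⟩ := separate (Subalgebra.toSubmodule B) hBc (x := ⟨fun z => conj (z : ℂ),
    by fun_prop⟩) hconj
  obtain ⟨μ, hμf, hμ, C, -, hC⟩ := exists_mu hX Ψ (fun f => hΨ0 _ (hrB f)) hΨ1
  obtain ⟨D, hD1, hD2⟩ := exists_deriv hA hμ hC
  exact hD2 (hD D hD1)

end Pool.Agent.H136R3.WA
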