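import Mathlib

set_option autoImplicit false

open MeasureTheory Filter Topology Set Metric Complex
open scoped NNReal ENNReal Real ComplexConjugate

namespace Pool.Agent.H136R3.WA

/-- `|u|² + ε²` -/
noncomputable def NN (ε : ℝ) (u : ℂ) : ℝ := ‖u‖ ^ 2 + ε ^ 2

/-- smooth truncation of the Cauchy kernel `1/u` -/
noncomputable def KK (ε : ℝ) (u : ℂ) : ℂ := conj u / (NN ε u : ℂ)

/-- smooth truncation of `1/u²` -/
noncomputable def HH (ε : ℝ) (u : ℂ) : ℂ := (conj u / (NN ε u : ℂ)) ^ 2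

/-- the Poisson type kernel -/
noncomputable def PP (ε : ℝ) (u : ℂ) : ℂ := (ε : ℂ) ^ 2 / (NN ε u : ℂ) ^ 2

variable {ε : ℝ}

theorem NN_pos (hε : 0 < ε) (u : ℂ) : 0 < NN ε u := by unfold NN; positivity

theorem NN_ne (hε : 0 < ε) (u : ℂ) : (NN ε u : ℂ) ≠ 0 := by
  exact_mod_cast (NN_pos hε u).ne'

theorem NN_eq (ε : ℝ) (u : ℂ) : (NN ε u : ℂ) = u * conj u + (ε : ℂ) ^ 2 := by
  unfold NN
  rw [Complex.mul_conj, Complex.normSq_eq_norm_sq]
  push_cast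
  ring

theorem NN_neg (ε : ℝ) (u : ℂ) : NN ε (-u) = NN ε u := by unfold NN; rw [norm_neg]

theorem norm_KK_le (hε : 0 < ε) (u : ℂ) : ‖KK ε u‖ ^ 2 ≤ (NN ε u)⁻¹ := by
  have h := NN_pos hε u
  unfold KK
  rw [norm_div, RCLike.norm_conj, Complex.norm_real, Real.norm_of_nonneg h.le, div_pow,
    div_le_iff₀ (by positivity)]
  have h2 : (NN ε u)⁻¹ * NN ε u ^ 2 = NN ε u := by field_simp
  rw [h2]
  unfold NN
  nlinarith [sq_nonneg ε]

theorem norm_HH_eq (hε : 0 < ε) (u : ℂ) : ‖HH ε u‖ = ‖KK ε u‖ ^ 2 := by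
  unfold HH KK
  rw [norm_pow]

theorem norm_HH_le (hε : 0 < ε) (u : ℂ) : ‖HH ε u‖ ≤ (NN ε u)⁻¹ := by
  rw [norm_HH_eq hε]; exact norm_KK_le hε u

theorem norm_PP_le (hε : 0 < ε) (u : ℂ) : ‖PP ε u‖ ≤ (NN ε u)⁻¹ := by
  have h := NN_pos hε u
  unfold PP
  rw [norm_div, norm_pow, norm_pow, Complex.norm_real, Complex.norm_real,
    Real.norm_of_nonneg h.le, Real.norm_of_nonneg hε.le, div_le_iff₀ (by positivity)]
  have h2 : (NN ε u)⁻¹ * NN ε u ^ 2 = NN ε u := by field_simp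
  rw [h2]
  unfold NN
  nlinarith [sq_nonneg ‖u‖]

theorem NN_lower (hε : 0 < ε) (hε1 : ε ≤ 1) (u : ℂ) : ε ^ 2 * (1 + ‖u‖ ^ 2) ≤ NN ε u := by
  unfold NN
  have : ε ^ 2 ≤ 1 := pow_le_one₀ hε.le hε1
  nlinarith [sq_nonneg ‖u‖]

theorem continuous_NN (ε : ℝ) : Continuous (NN ε) := by unfold NN; fun_prop

theorem continuous_KK (hε : 0 < ε) : Continuous (KK ε) := by
  unfold KK
  exact Continuous.div (by fun_prop) (Complex.continuous_ofReal.comp (continuous_NN ε)) (NN_ne hε)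

theorem continuous_HH (hε : 0 < ε) : Continuous (HH ε) := (continuous_KK hε).pow 2

theorem continuous_PP (hε : 0 < ε) : Continuous (PP ε) := by
  unfold PP
  exact Continuous.div (by fun_prop) ((Complex.continuous_ofReal.comp (continuous_NN ε)).pow 2)
    fun u => pow_ne_zero 2 (NN_ne hε u)

/-- the difference estimate for the Cauchy kernel -/
theorem KK_sub_le (hε : 0 < ε) {u u' : ℂ} (hu : u ≠ 0) (hu' : u' ≠ 0) :
    ‖KK ε u - KK ε u'‖ ≤ ‖u - u'‖ / (‖u‖ * ‖u'‖) := by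
  have h := NN_pos hε u
  have h' := NN_pos hε u'
  have hun : 0 < ‖u‖ := norm_pos_iff.2 hu
  have hun' : 0 < ‖u'‖ := norm_pos_iff.2 hu'
  have h1 : KK ε u - KK ε u' = (conj u * conj u' * (u' - u) + (ε : ℂ) ^ 2 * (conj u - conj u')) /
      ((NN ε u : ℂ) * (NN ε u' : ℂ)) := by
    unfold KK
    rw [div_sub_div _ _ (NN_ne hε u) (NN_ne hε u')]
    congr 1
    rw [NN_eq, NN_eq]
    ring
  have h2 : ‖conj u * conj u' * (u' - u) + (ε : ℂ) ^ 2 * (conj u - conj u')‖ ≤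
      (‖u‖ * ‖u'‖ + ε ^ 2) * ‖u - u'‖ := by
    refine (norm_add_le _ _).trans (le_of_eq ?_)
    rw [norm_mul, norm_mul, norm_mul, RCLike.norm_conj, RCLike.norm_conj, norm_pow,
      Complex.norm_real, Real.norm_of_nonneg hε.le, ← map_sub, RCLike.norm_conj, norm_sub_rev u' u]
    ring
  rw [h1, norm_div, norm_mul, Complex.norm_real, Complex.norm_real, Real.norm_of_nonneg h.le,
    Real.norm_of_nonneg h'.le, div_le_div_iff₀ (by positivity) (by positivity)]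
  have h3 : (‖u‖ * ‖u'‖ + ε ^ 2) * (‖u‖ * ‖u'‖) ≤ NN ε u * NN ε u' := by
    unfold NN
    nlinarith [sq_nonneg (ε * ‖u‖), sq_nonneg (ε * ‖u'‖), sq_nonneg (ε * (‖u‖ - ‖u'‖)),
      sq_nonneg (ε ^ 2), mul_pos hun hun', sq_nonneg (‖u‖ - ‖u'‖), mul_nonneg (sq_nonneg ε) (mul_pos hun hun').le]
  calc _ ≤ (‖u‖ * ‖u'‖ + ε ^ 2) * ‖u - u'‖ * (‖u‖ * ‖u'‖) := by gcongr
    _ = ‖u - u'‖ * ((‖u‖ * ‖u'‖ + ε ^ 2) * (‖u‖ * ‖u'‖)) := by ring
    _ ≤ _ := by gcongr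

theorem norm_KK_le' (hε : 0 < ε) {u : ℂ} (hu : u ≠ 0) : ‖KK ε u‖ ≤ ‖u‖⁻¹ := by
  have h := NN_pos hε u
  have hun : 0 < ‖u‖ := norm_pos_iff.2 hu
  unfold KK
  rw [norm_div, RCLike.norm_conj, Complex.norm_real, Real.norm_of_nonneg h.le, div_le_iff₀ h]
  unfold NN
  have : ‖u‖⁻¹ * (‖u‖ ^ 2 + ε ^ 2) = ‖u‖ + ‖u‖⁻¹ * ε ^ 2 := by field_simp
  rw [this]
  have : 0 ≤ ‖u‖⁻¹ * ε ^ 2 := by positivity
  linarith

/-- the difference estimate for the truncated Beurling kernel -/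
theorem HH_sub_le (hε : 0 < ε) {u u' : ℂ} {d : ℝ} (hd : 0 < d) (hu : d ≤ ‖u‖)
    (huu : ‖u - u'‖ ≤ d / 2) : ‖HH ε u - HH ε u'‖ ≤ 3 * d / ‖u‖ ^ 3 := by
  have hun : 0 < ‖u‖ := hd.trans_le hu
  have hu2 : ‖u‖ / 2 ≤ ‖u'‖ := by
    have h1 : ‖u‖ ≤ ‖u - u'‖ + ‖u'‖ := by
      have : u = (u - u') + u' := by ring
      conv_lhs => rw [this]
      exact norm_add_le _ _
    linarith
  have hun' : 0 < ‖u'‖ := by linarith
  have hu0 : u ≠ 0 := norm_pos_iff.1 hun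
  have hu0' : u' ≠ 0 := norm_pos_iff.1 hun'
  have h1 : HH ε u - HH ε u' = (KK ε u - KK ε u') * (KK ε u + KK ε u') := by
    unfold HH KK; ring
  rw [h1, norm_mul]
  have h2 := KK_sub_le hε hu0 hu0'
  have h3 : ‖KK ε u + KK ε u'‖ ≤ 3 / ‖u‖ := by
    refine (norm_add_le _ _).trans ?_
    have h4 := norm_KK_le' hε hu0
    have h5 := norm_KK_le' hε hu0'
    have h6 : ‖u'‖⁻¹ ≤ 2 / ‖u‖ := by
      rw [inv_eq_one_div, div_le_div_iff₀ hun' hun]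
      linarith
    have h7 : 3 / ‖u‖ = ‖u‖⁻¹ + 2 / ‖u‖ := by rw [inv_eq_one_div, ← add_div]; norm_num
    rw [h7]
    linarith
  have h4 : ‖KK ε u - KK ε u'‖ ≤ d / ‖u‖ ^ 2 := by
    refine h2.trans ?_
    rw [div_le_div_iff₀ (by positivity) (by positivity)]
    calc ‖u - u'‖ * ‖u‖ ^ 2 ≤ d / 2 * ‖u‖ ^ 2 := by gcongr
      _ = d * (‖u‖ * (‖u‖ / 2)) := by ring
      _ ≤ d * (‖u‖ * ‖u'‖) := by gcongr
  calc _ ≤ d / ‖u‖ ^ 2 * (3 / ‖u‖) := by gcongr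
    _ = _ := by field_simp

/-- Line derivatives -/
theorem hasLineDerivAt_KK (hε : 0 < ε) (u v : ℂ) :
    HasLineDerivAt ℝ (KK ε) (PP ε u * conj v - HH ε u * v) u v := by
  have h0 : ∀ t : ℝ, KK ε (u + t • v) = (conj u + t * conj v) /
      ((u + t * v) * (conj u + t * conj v) + (ε : ℂ) ^ 2) := by
    intro t
    unfold KK
    rw [NN_eq]
    simp [Complex.real_smul]
  have hc : HasDerivAt (fun t : ℝ => (conj u + t * conj v : ℂ)) (conj v) 0 := by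
    have := ((hasDerivAt_id (0 : ℝ)).ofReal_comp.mul_const (conj v)).const_add (conj u)
    simpa using this
  have hc2 : HasDerivAt (fun t : ℝ => (u + t * v : ℂ)) v 0 := by
    have := ((hasDerivAt_id (0 : ℝ)).ofReal_comp.mul_const v).const_add u
    simpa using this
  have hne : (u + ((0 : ℝ) : ℂ) * v) * (conj u + ((0 : ℝ) : ℂ) * conj v) + (ε : ℂ) ^ 2 ≠ 0 := by
    have := NN_ne hε u
    rw [NN_eq] at this
    simpa using this
  have h1 := hc.fun_div ((hc2.fun_mul hc).add_const ((ε : ℂ) ^ 2)) hne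
  unfold HasLineDerivAt
  have h2 : (fun t : ℝ => KK ε (u + t • v)) = fun t : ℝ => (conj u + t * conj v) /
      ((u + t * v) * (conj u + t * conj v) + (ε : ℂ) ^ 2) := funext h0
  rw [h2]
  convert! h1 using 1
  have hN := NN_ne hε u
  unfold PP HH
  rw [NN_eq] at hN ⊢
  simp only [ofReal_zero, zero_mul, add_zero]
  field_simp
  ring

end Pool.Agent.H136R3.WA
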