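import Pool.Agent.H136R3.WA.LemB

set_option autoImplicit false

open MeasureTheory Filter Topology Set Metric Complex
open scoped NNReal ENNReal Real ComplexConjugate

namespace Pool.Agent.H136R3.WA

variable {ε : ℝ}

theorem integrable_PP (hε : 0 < ε) (hε1 : ε ≤ 1) : Integrable (PP ε) := by
  have h0 : Integrable fun u : ℂ => GG u ^ 3 := integrable_GG_cube
  refine Integrable.mono' (h0.const_mul (2 / ε ^ 2 * (2 / ε ^ 2))) 
    (continuous_PP hε).aestronglyMeasurable (ae_of_all _ fun u => ?_)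
  have h := NN_pos hε u
  have hN := inv_NN_le hε hε1 u
  have hg := GG_pos u
  have hg1 := GG_le_one u
  have h1 : ‖PP ε u‖ ≤ (NN ε u)⁻¹ * (NN ε u)⁻¹ := by
    unfold PP
    rw [norm_div, norm_pow, norm_pow, Complex.norm_real, Complex.norm_real,
      Real.norm_of_nonneg h.le, Real.norm_of_nonneg hε.le, div_le_iff₀ (by positivity)]
    have h2 : (NN ε u)⁻¹ * (NN ε u)⁻¹ * NN ε u ^ 2 = 1 := by field_simp
    rw [h2]
    exact pow_le_one₀ hε.le hε1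
  have hN0 : 0 ≤ (NN ε u)⁻¹ := by positivity
  calc ‖PP ε u‖ ≤ (NN ε u)⁻¹ * (NN ε u)⁻¹ := h1
    _ ≤ (2 / ε ^ 2 * GG u ^ 2) * (2 / ε ^ 2 * GG u ^ 2) := by gcongr
    _ = 2 / ε ^ 2 * (2 / ε ^ 2) * (GG u ^ 3 * GG u) := by ring
    _ ≤ 2 / ε ^ 2 * (2 / ε ^ 2) * (GG u ^ 3 * 1) := by gcongr
    _ = _ := by ring

/-- total mass of the Poisson type kernel -/
noncomputable def CP : ℝ≥0∞ := ∫⁻ u : ℂ, ‖PP 1 u‖ₑ

theorem CP_lt_top : CP < ⊤ := (integrable_PP one_pos le_rfl).hasFiniteIntegral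

theorem lintegral_PP (hε : 0 < ε) (hε1 : ε ≤ 1) : ∫⁻ u : ℂ, ‖PP ε u‖ₑ = CP := by
  unfold CP
  rw [← ofReal_integral_norm_eq_lintegral_enorm (integrable_PP hε hε1),
    ← ofReal_integral_norm_eq_lintegral_enorm (integrable_PP one_pos le_rfl)]
  congr 1
  have h1 : ∀ u : ℂ, ‖PP ε u‖ = (ε⁻¹) ^ 2 * ‖PP 1 (ε⁻¹ • u)‖ := by
    intro u
    have h := NN_pos hε u
    have h' := NN_pos one_pos (ε⁻¹ • u)
    unfold PP
    rw [norm_div, norm_div, norm_pow, norm_pow, norm_pow, norm_pow, Complex.norm_real,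
      Complex.norm_real, Complex.norm_real, Complex.norm_real,
      Real.norm_of_nonneg h.le, Real.norm_of_nonneg h'.le, Real.norm_of_nonneg hε.le]
    have h2 : NN 1 (ε⁻¹ • u) = (ε⁻¹) ^ 2 * NN ε u := by
      unfold NN
      rw [norm_smul, Real.norm_of_nonneg (by positivity)]
      field_simp
    rw [h2]
    simp only [norm_one]
    field_simp
  simp only [h1]
  rw [integral_const_mul, Measure.integral_comp_smul volume (fun u : ℂ => ‖PP 1 u‖) ε⁻¹,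
    Complex.finrank_real_complex, smul_eq_mul, abs_of_nonneg (by positivity)]
  field_simp

section conv

variable {J Q : ℂ → ℂ} {C Λ R : ℝ}

theorem GG_shift {ζ : ℂ} (hR : 0 ≤ R) (hζ : ζ ∈ closedBall (0 : ℂ) R) (z : ℂ) :
    GG (z - ζ) ≤ (1 + R) * GG z := by
  unfold GG
  rw [← div_eq_mul_inv, inv_eq_one_div, div_le_div_iff₀ (by positivity) (by positivity), one_mul]
  rw [mem_closedBall, dist_zero_right] at hζ
  have h1 : ‖z‖ ≤ ‖z - ζ‖ + ‖ζ‖ := by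
    have : z = (z - ζ) + ζ := by ring
    conv_lhs => rw [this]
    exact norm_add_le _ _
  nlinarith [norm_nonneg (z - ζ), mul_nonneg hR (norm_nonneg (z - ζ))]

theorem bound_JQ (hC : 0 ≤ C) (hJ : ∀ u, ‖J u‖ ≤ C * GG u ^ 2)
    (hΛ : 0 ≤ Λ) (hQ : ∀ u, ‖Q u‖ ≤ Λ) (hR : 0 ≤ R) (hQ0 : ∀ u, u ∉ closedBall (0 : ℂ) R → Q u = 0)
    (z ζ : ℂ) : ‖J (z - ζ) * Q ζ‖ ≤ C * (1 + R) ^ 2 * Λ * GG z ^ 2 *
      (closedBall (0 : ℂ) R).indicator (fun _ => (1 : ℝ)) ζ := by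
  by_cases hζ : ζ ∈ closedBall (0 : ℂ) R
  · rw [indicator_of_mem hζ, mul_one, norm_mul]
    have h1 := GG_shift hR hζ z
    have h2 := GG_pos (z - ζ)
    calc ‖J (z - ζ)‖ * ‖Q ζ‖ ≤ (C * GG (z - ζ) ^ 2) * Λ := by
          gcongr
          · exact hJ _
          · exact hQ _
      _ ≤ (C * ((1 + R) * GG z) ^ 2) * Λ := by gcongr
      _ = _ := by ring
  · rw [indicator_of_notMem hζ, hQ0 ζ hζ]
    simp

theorem integrable_triple (hJc : Continuous J) (hC : 0 ≤ C) (hJ : ∀ u, ‖J u‖ ≤ C * GG u ^ 2)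
    (hQm : Measurable Q) (hΛ : 0 ≤ Λ) (hQ : ∀ u, ‖Q u‖ ≤ Λ) (hR : 0 ≤ R)
    (hQ0 : ∀ u, u ∉ closedBall (0 : ℂ) R → Q u = 0) :
    Integrable (fun p : ℂ × (ℂ × ℂ) => (J (p.1 - p.2.1) * Q p.2.1) *
      conj (J (p.1 - p.2.2) * Q p.2.2)) (volume.prod (volume.prod volume)) := by
  have hi : Integrable ((closedBall (0 : ℂ) R).indicator (fun _ => (1 : ℝ))) :=
    (integrable_indicator_iff isClosed_closedBall.measurableSet).2
      (integrableOn_const (isCompact_closedBall 0 R).measure_lt_top.ne)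
  have hdom : Integrable (fun p : ℂ × (ℂ × ℂ) => ((C * (1 + R) ^ 2 * Λ) ^ 2 * GG p.1 ^ 3) *
      ((closedBall (0 : ℂ) R).indicator (fun _ => (1 : ℝ)) p.2.1 *
        (closedBall (0 : ℂ) R).indicator (fun _ => (1 : ℝ)) p.2.2))
      (volume.prod (volume.prod volume)) :=
    (integrable_GG_cube.const_mul _).mul_prod (hi.mul_prod hi)
  refine Integrable.mono' hdom ?_ (ae_of_all _ fun p => ?_)
  · have hJm : Measurable J := hJc.measurable
    have h1 : Measurable fun p : ℂ × (ℂ × ℂ) => J (p.1 - p.2.1) * Q p.2.1 := by fun_prop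
    have h2 : Measurable fun p : ℂ × (ℂ × ℂ) => J (p.1 - p.2.2) * Q p.2.2 := by fun_prop
    exact (h1.mul (Complex.continuous_conj.measurable.comp h2)).aestronglyMeasurable
  · rw [norm_mul, RCLike.norm_conj]
    have b1 := bound_JQ hC hJ hΛ hQ hR hQ0 p.1 p.2.1
    have b2 := bound_JQ hC hJ hΛ hQ hR hQ0 p.1 p.2.2
    set i1 := (closedBall (0 : ℂ) R).indicator (fun _ => (1 : ℝ)) p.2.1 with hi1
    set i2 := (closedBall (0 : ℂ) R).indicator (fun _ => (1 : ℝ)) p.2.2 with hi2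
    have n1 : 0 ≤ i1 := indicator_nonneg (fun _ _ => zero_le_one) _
    have n2 : 0 ≤ i2 := indicator_nonneg (fun _ _ => zero_le_one) _
    have hg := GG_pos p.1
    have hg1 := GG_le_one p.1
    calc _ ≤ (C * (1 + R) ^ 2 * Λ * GG p.1 ^ 2 * i1) * (C * (1 + R) ^ 2 * Λ * GG p.1 ^ 2 * i2) := by
          gcongr
      _ = (C * (1 + R) ^ 2 * Λ) ^ 2 * (GG p.1 ^ 3 * GG p.1) * (i1 * i2) := by ring
      _ ≤ (C * (1 + R) ^ 2 * Λ) ^ 2 * (GG p.1 ^ 3 * 1) * (i1 * i2) := by gcongr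
      _ = _ := by ring

theorem conv_sq (hJc : Continuous J) (hC : 0 ≤ C) (hJ : ∀ u, ‖J u‖ ≤ C * GG u ^ 2)
    (hQm : Measurable Q) (hΛ : 0 ≤ Λ) (hQ : ∀ u, ‖Q u‖ ≤ Λ) (hR : 0 ≤ R)
    (hQ0 : ∀ u, u ∉ closedBall (0 : ℂ) R → Q u = 0) :
    Integrable (fun z => (∫ ζ, J (z - ζ) * Q ζ) * conj (∫ ζ, J (z - ζ) * Q ζ)) ∧
    ∫ z, (∫ ζ, J (z - ζ) * Q ζ) * conj (∫ ζ, J (z - ζ) * Q ζ) =
      ∫ p : ℂ × ℂ, (Q p.1 * conj (Q p.2)) * (∫ z, J (z - p.1) * conj (J (z - p.2)))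
        ∂(volume.prod volume) := by
  have hF := integrable_triple hJc hC hJ hQm hΛ hQ hR hQ0
  have h1 : ∀ z, (∫ ζ, J (z - ζ) * Q ζ) * conj (∫ ζ, J (z - ζ) * Q ζ) =
      ∫ p : ℂ × ℂ, (J (z - p.1) * Q p.1) * conj (J (z - p.2) * Q p.2) ∂(volume.prod volume) := by
    intro z
    rw [← integral_conj]
    exact (integral_prod_mul (μ := volume) (ν := volume) (fun ζ => J (z - ζ) * Q ζ)
      (fun ξ => conj (J (z - ξ) * Q ξ))).symm
  simp only [h1]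
  refine ⟨hF.integral_prod_left, ?_⟩
  rw [integral_integral_swap (f := fun z (p : ℂ × ℂ) => (J (z - p.1) * Q p.1) *
    conj (J (z - p.2) * Q p.2)) hF]
  apply integral_congr_ae
  refine ae_of_all _ fun p => ?_
  simp only
  rw [← integral_const_mul]
  congr 1
  funext z
  rw [map_mul]
  ring

end conv

/-- **Lemma A.** -/
theorem lemA {Q : ℂ → ℂ} {Λ R : ℝ} (hQm : Measurable Q) (hΛ : 0 ≤ Λ) (hQ : ∀ u, ‖Q u‖ ≤ Λ)
    (hR : 0 ≤ R) (hQ0 : ∀ u, u ∉ closedBall (0 : ℂ) R → Q u = 0) (hε : 0 < ε) (hε1 : ε ≤ 1) :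
    ∫⁻ z, ‖∫ ζ, HH ε (z - ζ) * Q ζ‖ₑ ^ 2 ≤
      (ENNReal.ofReal Λ * CP) * (ENNReal.ofReal Λ * CP * volume (closedBall (0 : ℂ) R)) := by
  obtain ⟨iH, eH⟩ := conv_sq (continuous_HH hε) (by positivity) (norm_HH_le_GG hε hε1)
    hQm hΛ hQ hR hQ0
  obtain ⟨iP, eP⟩ := conv_sq (continuous_PP hε) (by positivity) (norm_PP_le_GG hε hε1)
    hQm hΛ hQ hR hQ0
  have hEq : ∫ z, (∫ ζ, HH ε (z - ζ) * Q ζ) * conj (∫ ζ, HH ε (z - ζ) * Q ζ) =
      ∫ z, (∫ ζ, PP ε (z - ζ) * Q ζ) * conj (∫ ζ, PP ε (z - ζ) * Q ζ) := by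
    rw [eH, eP]
    simp only [lemB hε hε1]
  have hcast : ∀ w : ℂ, w * conj w = ((‖w‖ ^ 2 : ℝ) : ℂ) := by
    intro w
    rw [Complex.mul_conj, Complex.normSq_eq_norm_sq]
  simp only [hcast] at hEq iH iP
  rw [integral_complex_ofReal, integral_complex_ofReal] at hEq
  have hEq2 : ∫ z, ‖∫ ζ, HH ε (z - ζ) * Q ζ‖ ^ 2 = ∫ z, ‖∫ ζ, PP ε (z - ζ) * Q ζ‖ ^ 2 := by
    exact_mod_cast hEq
  have iH' : Integrable fun z => ‖∫ ζ, HH ε (z - ζ) * Q ζ‖ ^ 2 := by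
    refine iH.re.congr (ae_of_all _ fun z => ?_)
    exact Complex.ofReal_re _
  have iP' : Integrable fun z => ‖∫ ζ, PP ε (z - ζ) * Q ζ‖ ^ 2 := by
    refine iP.re.congr (ae_of_all _ fun z => ?_)
    exact Complex.ofReal_re _
  have c1 : ∀ w : ℂ, ‖w‖ₑ ^ 2 = ENNReal.ofReal (‖w‖ ^ 2) := by
    intro w
    rw [← ofReal_norm, ENNReal.ofReal_pow (norm_nonneg _)]
  simp only [c1]
  rw [← ofReal_integral_eq_lintegral_ofReal iH' (ae_of_all _ fun z => by positivity), hEq2,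
    ofReal_integral_eq_lintegral_ofReal iP' (ae_of_all _ fun z => by positivity)]
  simp only [← c1]
  have hPm : Measurable (PP ε) := (continuous_PP hε).measurable
  have b1 : ∀ z, ‖∫ ζ, PP ε (z - ζ) * Q ζ‖ₑ ≤ ∫⁻ ζ, ‖PP ε (z - ζ)‖ₑ * ‖Q ζ‖ₑ := by
    intro z
    refine (enorm_integral_le_lintegral_enorm _).trans (le_of_eq ?_)
    simp only [enorm_mul]
  have b2 : ∀ z, ∫⁻ ζ, ‖PP ε (z - ζ)‖ₑ * ‖Q ζ‖ₑ ≤ ENNReal.ofReal Λ * CP := by
    intro z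
    calc ∫⁻ ζ, ‖PP ε (z - ζ)‖ₑ * ‖Q ζ‖ₑ ≤ ∫⁻ ζ, ‖PP ε (z - ζ)‖ₑ * ENNReal.ofReal Λ := by
          apply lintegral_mono
          intro ζ
          simp only
          gcongr
          rw [← ofReal_norm]
          exact ENNReal.ofReal_le_ofReal (hQ ζ)
      _ = (∫⁻ ζ, ‖PP ε (z - ζ)‖ₑ) * ENNReal.ofReal Λ := by
          rw [lintegral_mul_const _ (by fun_prop)]
      _ = ENNReal.ofReal Λ * CP := by
          rw [lintegral_sub_left_eq_self (μ := (volume : Measure ℂ)) (fun u => ‖PP ε u‖ₑ) z,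
            lintegral_PP hε hε1, mul_comm]
  calc ∫⁻ z, ‖∫ ζ, PP ε (z - ζ) * Q ζ‖ₑ ^ 2
      ≤ ∫⁻ z, (ENNReal.ofReal Λ * CP) * ∫⁻ ζ, ‖PP ε (z - ζ)‖ₑ * ‖Q ζ‖ₑ := by
        apply lintegral_mono
        intro z
        simp only
        rw [sq]
        exact mul_le_mul' ((b1 z).trans (b2 z)) (b1 z)
    _ = (ENNReal.ofReal Λ * CP) * ∫⁻ z, ∫⁻ ζ, ‖PP ε (z - ζ)‖ₑ * ‖Q ζ‖ₑ := by
        rw [lintegral_const_mul]
        apply Measurable.lintegral_prod_right' (f := fun p : ℂ × ℂ => ‖PP ε (p.1 - p.2)‖ₑ * ‖Q p.2‖ₑ)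
        fun_prop
    _ = (ENNReal.ofReal Λ * CP) * ∫⁻ ζ, ∫⁻ z, ‖PP ε (z - ζ)‖ₑ * ‖Q ζ‖ₑ := by
        rw [lintegral_lintegral_swap]
        apply Measurable.aemeasurable
        have : Measurable (fun p : ℂ × ℂ => ‖PP ε (p.1 - p.2)‖ₑ * ‖Q p.2‖ₑ) := by fun_prop
        exact this
    _ = (ENNReal.ofReal Λ * CP) * ∫⁻ ζ, CP * ‖Q ζ‖ₑ := by
        congr 1
        apply lintegral_congr
        intro ζ
        rw [lintegral_mul_const _ (by fun_prop),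
          lintegral_sub_right_eq_self (μ := (volume : Measure ℂ)) (fun u => ‖PP ε u‖ₑ) ζ,
          lintegral_PP hε hε1]
    _ ≤ (ENNReal.ofReal Λ * CP) * (ENNReal.ofReal Λ * CP * volume (closedBall (0 : ℂ) R)) := by
        gcongr
        rw [lintegral_const_mul _ (by fun_prop)]
        have : ∫⁻ ζ, ‖Q ζ‖ₑ ≤ ENNReal.ofReal Λ * volume (closedBall (0 : ℂ) R) := by
          rw [← lintegral_indicator_const isClosed_closedBall.measurableSet]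
          apply lintegral_mono
          intro ζ
          simp only
          by_cases hζ : ζ ∈ closedBall (0 : ℂ) R
          · rw [indicator_of_mem hζ, ← ofReal_norm]
            exact ENNReal.ofReal_le_ofReal (hQ ζ)
          · rw [indicator_of_notMem hζ, hQ0 ζ hζ]
            simp
        calc CP * ∫⁻ ζ, ‖Q ζ‖ₑ ≤ CP * (ENNReal.ofReal Λ * volume (closedBall (0 : ℂ) R)) := by
              gcongr
          _ = _ := by ring

end Pool.Agent.H136R3.WA
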