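import Pool.Agent.H136R3.WA.Kernel

set_option autoImplicit false

open MeasureTheory Filter Topology Set Metric Complex
open scoped NNReal ENNReal Real ComplexConjugate

namespace Pool.Agent.H136R3.WA

variable {ε : ℝ}

/-- comparison weight -/
noncomputable def GG (u : ℂ) : ℝ := (1 + ‖u‖)⁻¹

theorem GG_pos (u : ℂ) : 0 < GG u := by unfold GG; positivity

theorem GG_le_one (u : ℂ) : GG u ≤ 1 := by
  unfold GG
  apply inv_le_one_of_one_le₀
  have := norm_nonneg u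
  linarith

theorem continuous_GG : Continuous GG := by
  unfold GG
  exact Continuous.inv₀ (by fun_prop) fun u => by positivity

theorem integrable_GG_cube : Integrable (fun u : ℂ => GG u ^ 3) := by
  have h := integrable_one_add_norm (E := ℂ) (μ := volume) (r := 3) (by
    rw [Complex.finrank_real_complex]; norm_num)
  refine h.congr (ae_of_all _ fun u => ?_)
  simp only
  unfold GG
  rw [Real.rpow_neg (by positivity), inv_pow]
  congr 1
  exact_mod_cast Real.rpow_natCast (1 + ‖u‖) 3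

theorem inv_NN_le (hε : 0 < ε) (hε1 : ε ≤ 1) (u : ℂ) : (NN ε u)⁻¹ ≤ 2 / ε ^ 2 * GG u ^ 2 := by
  have h := NN_lower hε hε1 u
  have h2 := NN_pos hε u
  have hn := norm_nonneg u
  unfold GG
  rw [inv_pow, ← div_eq_mul_inv, div_div, inv_eq_one_div, div_le_div_iff₀ h2 (by positivity), one_mul]
  have h3 : (1 + ‖u‖) ^ 2 ≤ 2 * (1 + ‖u‖ ^ 2) := by nlinarith [sq_nonneg (‖u‖ - 1)]
  calc ε ^ 2 * (1 + ‖u‖) ^ 2 ≤ ε ^ 2 * (2 * (1 + ‖u‖ ^ 2)) := by gcongr
    _ = 2 * (ε ^ 2 * (1 + ‖u‖ ^ 2)) := by ring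
    _ ≤ _ := by gcongr

theorem norm_HH_le_GG (hε : 0 < ε) (hε1 : ε ≤ 1) (u : ℂ) : ‖HH ε u‖ ≤ 2 / ε ^ 2 * GG u ^ 2 :=
  (norm_HH_le hε u).trans (inv_NN_le hε hε1 u)

theorem norm_PP_le_GG (hε : 0 < ε) (hε1 : ε ≤ 1) (u : ℂ) : ‖PP ε u‖ ≤ 2 / ε ^ 2 * GG u ^ 2 :=
  (norm_PP_le hε u).trans (inv_NN_le hε hε1 u)

theorem norm_KK_le_GG (hε : 0 < ε) (hε1 : ε ≤ 1) (u : ℂ) : ‖KK ε u‖ ≤ 2 / ε * GG u := by
  have h1 := norm_KK_le hε u
  have h2 := inv_NN_le hε hε1 u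
  have h3 : ‖KK ε u‖ ^ 2 ≤ (2 / ε * GG u) ^ 2 := by
    have : (2 / ε * GG u) ^ 2 = 2 * (2 / ε ^ 2 * GG u ^ 2) := by
      rw [mul_pow, div_pow]; ring
    rw [this]
    have := GG_pos u
    have h4 : 0 ≤ 2 / ε ^ 2 * GG u ^ 2 := by positivity
    linarith
  have := GG_pos u
  exact (pow_le_pow_iff_left₀ (norm_nonneg _) (by positivity) two_ne_zero).1 h3

/-- the mixed second derivative of `KK` -/
noncomputable def EE (ε : ℝ) (u : ℂ) : ℂ :=
  2 * I * ((ε : ℂ) ^ 2 * u + conj u ^ 3) / (NN ε u : ℂ) ^ 3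

theorem continuous_EE (hε : 0 < ε) : Continuous (EE ε) := by
  unfold EE
  exact Continuous.div (by fun_prop) ((Complex.continuous_ofReal.comp (continuous_NN ε)).pow 3)
    fun u => pow_ne_zero 3 (NN_ne hε u)

theorem norm_EE_le (hε : 0 < ε) (hε1 : ε ≤ 1) (u : ℂ) :
    ‖EE ε u‖ ≤ (2 / ε) * (2 / ε ^ 2) * GG u ^ 2 := by
  have h := NN_pos hε u
  have hu := norm_nonneg u
  have h1 : ‖EE ε u‖ ≤ 2 * ‖u‖ * (NN ε u)⁻¹ * (NN ε u)⁻¹ := by
    unfold EE
    rw [norm_div, norm_pow, Complex.norm_real, Real.norm_of_nonneg h.le, div_le_iff₀ (by positivity)]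
    have h2 : 2 * ‖u‖ * (NN ε u)⁻¹ * (NN ε u)⁻¹ * NN ε u ^ 3 = 2 * (‖u‖ * NN ε u) := by
      field_simp
    rw [h2, norm_mul, norm_mul, Complex.norm_I]
    have h3 : ‖(ε : ℂ) ^ 2 * u + conj u ^ 3‖ ≤ ‖u‖ * NN ε u := by
      refine (norm_add_le _ _).trans (le_of_eq ?_)
      rw [norm_mul, norm_pow, norm_pow, RCLike.norm_conj, Complex.norm_real,
        Real.norm_of_nonneg hε.le]
      unfold NN
      ring
    have h4 : ‖(2 : ℂ)‖ = 2 := by norm_num
    rw [h4]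
    linarith
  have h2 : ‖u‖ * (NN ε u)⁻¹ ≤ 1 / ε := by
    rw [← div_eq_mul_inv, div_le_div_iff₀ h hε, one_mul]
    unfold NN
    nlinarith [sq_nonneg (‖u‖ - ε), mul_nonneg hu hε.le, sq_nonneg ‖u‖, sq_nonneg ε]
  calc ‖EE ε u‖ ≤ 2 * ‖u‖ * (NN ε u)⁻¹ * (NN ε u)⁻¹ := h1
    _ = 2 * (‖u‖ * (NN ε u)⁻¹) * (NN ε u)⁻¹ := by ring
    _ ≤ 2 * (1 / ε) * (2 / ε ^ 2 * GG u ^ 2) := by
      have := inv_NN_le hε hε1 u
      have h5 : 0 ≤ (NN ε u)⁻¹ := by positivity
      gcongr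
    _ = _ := by ring

/-- direction derivatives of `KK` -/
noncomputable def DD (ε : ℝ) (v u : ℂ) : ℂ := PP ε u * conj v - HH ε u * v

theorem continuous_DD (hε : 0 < ε) (v : ℂ) : Continuous (DD ε v) := by
  unfold DD
  exact ((continuous_PP hε).mul continuous_const).sub ((continuous_HH hε).mul continuous_const)

theorem norm_DD_le (hε : 0 < ε) (hε1 : ε ≤ 1) {v : ℂ} (hv : ‖v‖ = 1) (u : ℂ) :
    ‖DD ε v u‖ ≤ 4 / ε ^ 2 * GG u ^ 2 := by
  unfold DD
  refine (norm_sub_le _ _).trans ?_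
  rw [norm_mul, norm_mul, RCLike.norm_conj, hv, mul_one, mul_one]
  have h1 := norm_HH_le_GG hε hε1 u
  have h2 := norm_PP_le_GG hε hε1 u
  have h3 : 4 / ε ^ 2 * GG u ^ 2 = 2 / ε ^ 2 * GG u ^ 2 + 2 / ε ^ 2 * GG u ^ 2 := by ring
  rw [h3]
  exact add_le_add h2 h1

theorem hasLineDerivAt_NN (ε : ℝ) (u v : ℂ) :
    HasDerivAt (fun t : ℝ => (NN ε (u + t • v) : ℂ)) (u * conj v + v * conj u) 0 := by
  have h0 : (fun t : ℝ => (NN ε (u + t • v) : ℂ)) = fun t : ℝ =>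
      ((u + t * v) * (conj u + t * conj v) + (ε : ℂ) ^ 2) := by
    funext t
    rw [NN_eq]
    simp [Complex.real_smul]
  have hc : HasDerivAt (fun t : ℝ => (conj u + t * conj v : ℂ)) (conj v) 0 := by
    have := ((hasDerivAt_id (0 : ℝ)).ofReal_comp.mul_const (conj v)).const_add (conj u)
    simpa using this
  have hc2 : HasDerivAt (fun t : ℝ => (u + t * v : ℂ)) v 0 := by
    have := ((hasDerivAt_id (0 : ℝ)).ofReal_comp.mul_const v).const_add u
    simpa using this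
  rw [h0]
  have h1 := (hc2.fun_mul hc).add_const ((ε : ℂ) ^ 2)
  convert! h1 using 1
  simp
  ring

/-- line derivative of `PP` and `HH` -/
theorem hasLineDerivAt_PP (hε : 0 < ε) (u v : ℂ) :
    HasLineDerivAt ℝ (PP ε)
      (-(2 * (ε : ℂ) ^ 2 * (u * conj v + v * conj u)) / (NN ε u : ℂ) ^ 3) u v := by
  have hN := NN_ne hε u
  have h1 := hasLineDerivAt_NN ε u v
  have h0 : (NN ε (u + (0 : ℝ) • v) : ℂ) = NN ε u := by simp
  have h2 := (hasDerivAt_const (0 : ℝ) ((ε : ℂ) ^ 2)).fun_div (h1.fun_pow 2) (by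
    rw [h0]; exact pow_ne_zero 2 hN)
  unfold HasLineDerivAt
  have h3 : (fun t : ℝ => PP ε (u + t • v)) = fun t : ℝ => (ε : ℂ) ^ 2 /
      (NN ε (u + t • v) : ℂ) ^ 2 := rfl
  rw [h3]
  convert! h2 using 1
  rw [h0]
  field_simp
  ring

theorem hasLineDerivAt_HH (hε : 0 < ε) (u v : ℂ) :
    HasLineDerivAt ℝ (HH ε)
      (2 * (conj u / (NN ε u : ℂ)) * (PP ε u * conj v - HH ε u * v)) u v := by
  have h1 := hasLineDerivAt_KK hε u v
  unfold HasLineDerivAt at h1 ⊢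
  have h2 := h1.fun_pow 2
  have h3 : (fun t : ℝ => HH ε (u + t • v)) = fun t : ℝ => KK ε (u + t • v) ^ 2 := rfl
  rw [h3]
  convert! h2 using 1
  simp [KK]

theorem hasLineDerivAt_DD_one (hε : 0 < ε) (u : ℂ) :
    HasLineDerivAt ℝ (DD ε 1) (EE ε u) u I := by
  have hN := NN_ne hε u
  have h1 := hasLineDerivAt_PP hε u I
  have h2 := hasLineDerivAt_HH hε u I
  unfold HasLineDerivAt at h1 h2 ⊢
  have h3 := h1.fun_sub h2
  have h4 : (fun t : ℝ => DD ε 1 (u + t • I)) = fun t : ℝ => PP ε (u + t • I) - HH ε (u + t • I) := by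
    funext t; simp [DD]
  rw [h4]
  convert! h3 using 1
  unfold EE PP HH
  rw [Complex.conj_I]
  have hN' := hN
  rw [NN_eq] at hN' ⊢
  field_simp
  ring_nf

theorem hasLineDerivAt_DD_I (hε : 0 < ε) (u : ℂ) :
    HasLineDerivAt ℝ (DD ε I) (EE ε u) u 1 := by
  have hN := NN_ne hε u
  have h1 := hasLineDerivAt_PP hε u 1
  have h2 := hasLineDerivAt_HH hε u 1
  unfold HasLineDerivAt at h1 h2 ⊢
  have h3 := (h1.mul_const (conj I)).fun_sub (h2.mul_const I)
  have h4 : (fun t : ℝ => DD ε I (u + t • (1 : ℂ))) =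
      fun t : ℝ => PP ε (u + t • (1 : ℂ)) * conj I - HH ε (u + t • (1 : ℂ)) * I := by
    funext t; simp [DD]
  rw [h4]
  convert! h3 using 1
  unfold EE PP HH
  rw [Complex.conj_I, map_one]
  have hN' := hN
  rw [NN_eq] at hN' ⊢
  field_simp
  ring_nf

theorem hasLineDerivAt_sub {f : ℂ → ℂ} {f' : ℂ} {z v w : ℂ}
    (h : HasLineDerivAt ℝ f f' (z - w) v) : HasLineDerivAt ℝ (fun z => f (z - w)) f' z v := by
  unfold HasLineDerivAt at h ⊢
  have : (fun t : ℝ => (fun z => f (z - w)) (z + t • v)) = fun t : ℝ => f (z - w + t • v) := by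
    funext t
    simp only
    congr 1
    ring
  rw [this]
  exact h

theorem integrable_of_GG {a b : ℂ → ℂ} (ha : Continuous a) (hb : Continuous b) {ζ ξ : ℂ} {C D : ℝ}
    (hC : 0 ≤ C) (hD : 0 ≤ D)
    (h1 : ∀ z, ‖a z‖ ≤ C * GG (z - ζ)) (h2 : ∀ z, ‖b z‖ ≤ D * GG (z - ξ) ^ 2) :
    Integrable fun z => a z * conj (b z) := by
  have hi1 : Integrable fun z : ℂ => GG (z - ζ) ^ 3 := integrable_GG_cube.comp_sub_right ζ
  have hi2 : Integrable fun z : ℂ => GG (z - ξ) ^ 3 := integrable_GG_cube.comp_sub_right ξ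
  refine Integrable.mono' ((hi1.add hi2).const_mul (C * D)) ?_ (ae_of_all _ fun z => ?_)
  · exact (ha.mul (Complex.continuous_conj.comp hb)).aestronglyMeasurable
  · rw [norm_mul, RCLike.norm_conj]
    have g1 := GG_pos (z - ζ)
    have g2 := GG_pos (z - ξ)
    have h3 : GG (z - ζ) * GG (z - ξ) ^ 2 ≤ GG (z - ζ) ^ 3 + GG (z - ξ) ^ 3 := by
      rcases le_total (GG (z - ζ)) (GG (z - ξ)) with h | h
      · have : GG (z - ζ) * GG (z - ξ) ^ 2 ≤ GG (z - ξ) * GG (z - ξ) ^ 2 := by gcongr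
        have h4 : GG (z - ξ) * GG (z - ξ) ^ 2 = GG (z - ξ) ^ 3 := by ring
        have h5 : 0 ≤ GG (z - ζ) ^ 3 := by positivity
        linarith
      · have : GG (z - ζ) * GG (z - ξ) ^ 2 ≤ GG (z - ζ) * GG (z - ζ) ^ 2 := by gcongr
        have h4 : GG (z - ζ) * GG (z - ζ) ^ 2 = GG (z - ζ) ^ 3 := by ring
        have h5 : 0 ≤ GG (z - ξ) ^ 3 := by positivity
        linarith
    calc ‖a z‖ * ‖b z‖ ≤ (C * GG (z - ζ)) * (D * GG (z - ξ) ^ 2) := by
          gcongr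
          · exact h1 z
          · exact h2 z
      _ = C * D * (GG (z - ζ) * GG (z - ξ) ^ 2) := by ring
      _ ≤ C * D * (GG (z - ζ) ^ 3 + GG (z - ξ) ^ 3) := by gcongr
      _ = _ := by simp

/-- bilinear form `x * conj y` -/
noncomputable def BB : ℂ →L[ℝ] ℂ →L[ℝ] ℂ :=
  ((ContinuousLinearMap.compL ℝ ℂ ℂ ℂ).flip conjCLE.toContinuousLinearMap).comp
    (ContinuousLinearMap.mul ℝ ℂ)

theorem BB_apply (x y : ℂ) : BB x y = x * conj y := by
  simp [BB]

theorem norm_DD_le1 (hε : 0 < ε) (hε1 : ε ≤ 1) {v : ℂ} (hv : ‖v‖ = 1) (u : ℂ) :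
    ‖DD ε v u‖ ≤ 4 / ε ^ 2 * GG u := by
  refine (norm_DD_le hε hε1 hv u).trans ?_
  have h1 := GG_pos u
  have h2 := GG_le_one u
  have : GG u ^ 2 ≤ GG u := by nlinarith
  gcongr

/-- The truncated Beurling kernel and the Poisson kernel have the same autocorrelation. -/
theorem lemB (hε : 0 < ε) (hε1 : ε ≤ 1) (ζ ξ : ℂ) :
    ∫ z, HH ε (z - ζ) * conj (HH ε (z - ξ)) = ∫ z, PP ε (z - ζ) * conj (PP ε (z - ξ)) := by
  have hcs : ∀ w : ℂ, Continuous fun z : ℂ => z - w := fun w => by fun_prop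
  have cD : ∀ v w : ℂ, Continuous fun z => DD ε v (z - w) := fun v w =>
    (continuous_DD hε v).comp (hcs w)
  have cK : ∀ w : ℂ, Continuous fun z => KK ε (z - w) := fun w => (continuous_KK hε).comp (hcs w)
  have cE : ∀ w : ℂ, Continuous fun z => EE ε (z - w) := fun w => (continuous_EE hε).comp (hcs w)
  have cP : ∀ w : ℂ, Continuous fun z => PP ε (z - w) := fun w => (continuous_PP hε).comp (hcs w)
  have cH : ∀ w : ℂ, Continuous fun z => HH ε (z - w) := fun w => (continuous_HH hε).comp (hcs w)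
  have h1v : ‖(1 : ℂ)‖ = 1 := norm_one
  have hIv : ‖I‖ = 1 := Complex.norm_I
  have hbK : ∀ z, ‖KK ε (z - ζ)‖ ≤ 2 / ε * GG (z - ζ) := fun z => norm_KK_le_GG hε hε1 _
  have hbE : ∀ z, ‖EE ε (z - ξ)‖ ≤ (2 / ε) * (2 / ε ^ 2) * GG (z - ξ) ^ 2 := fun z =>
    norm_EE_le hε hε1 _
  have hKE : Integrable fun z => KK ε (z - ζ) * conj (EE ε (z - ξ)) :=
    integrable_of_GG (cK ζ) (cE ξ) (by positivity) (by positivity) hbK hbE
  have hKD : ∀ v : ℂ, ‖v‖ = 1 → Integrable fun z => KK ε (z - ζ) * conj (DD ε v (z - ξ)) :=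
    fun v hv => integrable_of_GG (D := 4 / ε ^ 2) (cK ζ) (cD v ξ) (by positivity) (by positivity)
      hbK fun z => norm_DD_le hε hε1 hv _
  have hDD : ∀ v v' : ℂ, ‖v‖ = 1 → ‖v'‖ = 1 →
      Integrable fun z => DD ε v (z - ζ) * conj (DD ε v' (z - ξ)) :=
    fun v v' hv hv' => integrable_of_GG (C := 4 / ε ^ 2) (D := 4 / ε ^ 2) (cD v ζ) (cD v' ξ)
      (by positivity) (by positivity) (fun z => norm_DD_le1 hε hε1 hv _)
      fun z => norm_DD_le hε hε1 hv' _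
  -- two integrations by parts
  have e1 : ∫ z, DD ε 1 (z - ζ) * conj (DD ε I (z - ξ)) =
      - ∫ z, KK ε (z - ζ) * conj (EE ε (z - ξ)) := by
    have := integral_bilinear_hasLineDerivAt_right_eq_neg_left_of_integrable (μ := volume)
      (f := fun z => KK ε (z - ζ)) (f' := fun z => DD ε 1 (z - ζ))
      (g := fun z => DD ε I (z - ξ)) (g' := fun z => EE ε (z - ξ)) (v := (1 : ℂ)) (B := BB)
      (by simpa only [BB_apply] using hDD 1 I h1v hIv) (by simpa only [BB_apply] using hKE)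
      (by simpa only [BB_apply] using hKD I hIv)
      (fun z _ => hasLineDerivAt_sub (hasLineDerivAt_KK hε _ _))
      (fun z _ => hasLineDerivAt_sub (hasLineDerivAt_DD_I hε _))
    simp only [BB_apply] at this
    rw [this, neg_neg]
  have e2 : ∫ z, DD ε I (z - ζ) * conj (DD ε 1 (z - ξ)) =
      - ∫ z, KK ε (z - ζ) * conj (EE ε (z - ξ)) := by
    have := integral_bilinear_hasLineDerivAt_right_eq_neg_left_of_integrable (μ := volume)
      (f := fun z => KK ε (z - ζ)) (f' := fun z => DD ε I (z - ζ))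
      (g := fun z => DD ε 1 (z - ξ)) (g' := fun z => EE ε (z - ξ)) (v := I) (B := BB)
      (by simpa only [BB_apply] using hDD I 1 hIv h1v) (by simpa only [BB_apply] using hKE)
      (by simpa only [BB_apply] using hKD 1 h1v)
      (fun z _ => hasLineDerivAt_sub (hasLineDerivAt_KK hε _ _))
      (fun z _ => hasLineDerivAt_sub (hasLineDerivAt_DD_one hε _))
    simp only [BB_apply] at this
    rw [this, neg_neg]
  have hPP : Integrable fun z => PP ε (z - ζ) * conj (PP ε (z - ξ)) :=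
    integrable_of_GG (C := 2 / ε ^ 2) (D := 2 / ε ^ 2) (cP ζ) (cP ξ)
      (by positivity) (by positivity) (fun z => by
        refine (norm_PP_le_GG hε hε1 _).trans ?_
        have h1 := GG_pos (z - ζ)
        have h2 := GG_le_one (z - ζ)
        have : GG (z - ζ) ^ 2 ≤ GG (z - ζ) := by nlinarith
        gcongr)
      fun z => norm_PP_le_GG hε hε1 _
  have hHH : Integrable fun z => HH ε (z - ζ) * conj (HH ε (z - ξ)) :=
    integrable_of_GG (C := 2 / ε ^ 2) (D := 2 / ε ^ 2) (cH ζ) (cH ξ)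
      (by positivity) (by positivity) (fun z => by
        refine (norm_HH_le_GG hε hε1 _).trans ?_
        have h1 := GG_pos (z - ζ)
        have h2 := GG_le_one (z - ζ)
        have : GG (z - ζ) ^ 2 ≤ GG (z - ζ) := by nlinarith
        gcongr)
      fun z => norm_HH_le_GG hε hε1 _
  have e3 : ∫ z, (DD ε 1 (z - ζ) * conj (DD ε I (z - ξ)) - DD ε I (z - ζ) * conj (DD ε 1 (z - ξ))) = 0 := by
    rw [integral_sub (hDD 1 I h1v hIv) (hDD I 1 hIv h1v), e1, e2, sub_self]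
  have e4 : ∀ z, DD ε 1 (z - ζ) * conj (DD ε I (z - ξ)) - DD ε I (z - ζ) * conj (DD ε 1 (z - ξ)) =
      2 * I * (PP ε (z - ζ) * conj (PP ε (z - ξ)) - HH ε (z - ζ) * conj (HH ε (z - ξ))) := by
    intro z
    unfold DD
    simp only [map_sub, map_mul, Complex.conj_I, map_one, map_neg]
    ring
  simp only [e4] at e3
  rw [integral_const_mul, integral_sub hPP hHH] at e3
  have h2I : (2 * I : ℂ) ≠ 0 := by simp
  have := (mul_eq_zero.1 e3).resolve_left h2I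
  exact (sub_eq_zero.1 this).symm

end Pool.Agent.H136R3.WA
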