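import Pool.Agent.H136R3.Dom

set_option autoImplicit false

open MeasureTheory Filter Topology Set Metric Complex
open scoped NNReal ENNReal Real ComplexConjugate

namespace Pool.Agent.H136R3.WA

theorem avg_in {ζ : ℂ} {r : ℝ} (hr : 0 < r) (h : r < ‖ζ‖) :
    Real.circleAverage (fun z => (ζ - z)⁻¹) 0 r = ζ⁻¹ := by
  have hd : DiffContOnCl ℂ (fun z => (ζ - z)⁻¹) (ball (0 : ℂ) |r|) := by
    rw [abs_of_pos hr]
    apply DifferentiableOn.diffContOnCl
    rw [closure_ball _ hr.ne']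
    intro z hz
    rw [mem_closedBall, dist_zero_right] at hz
    have hne : ζ - z ≠ 0 := by
      rw [sub_ne_zero]
      rintro rfl
      linarith
    exact (DifferentiableAt.inv (by fun_prop) hne).differentiableWithinAt
  rw [hd.circleAverage, sub_zero]

theorem avg_out {ζ : ℂ} {r : ℝ} (h : ‖ζ‖ < r) :
    Real.circleAverage (fun z => (ζ - z)⁻¹) 0 r = 0 := by
  have hr : 0 < r := (norm_nonneg _).trans_lt h
  rw [Real.circleAverage_eq_circleAverage_zero_one, ← Real.circleAverage_zero_one_congr_inv]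
  have hne : ∀ z : ℂ, ‖z‖ ≤ 1 → ζ * z - r ≠ 0 := by
    intro z hz h0
    have h1 : ‖ζ * z‖ = r := by
      rw [sub_eq_zero.1 h0, Complex.norm_real, Real.norm_of_nonneg hr.le]
    rw [norm_mul] at h1
    have h2 : ‖ζ‖ * ‖z‖ ≤ ‖ζ‖ * 1 := by gcongr
    linarith
  have hcongr : Real.circleAverage (fun z : ℂ => (ζ - ((r : ℂ) * z⁻¹ + 0))⁻¹) 0 1 =
      Real.circleAverage (fun z : ℂ => z * (ζ * z - r)⁻¹) 0 1 := by
    apply Real.circleAverage_congr_sphere
    intro z hz
    rw [abs_one, mem_sphere, dist_zero_right] at hz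
    have hz0 : z ≠ 0 := by
      rintro rfl
      simp at hz
    have h1 := hne z hz.le
    simp only [add_zero]
    rw [← inv_inj, inv_inv, mul_inv, inv_inv]
    field_simp
  rw [hcongr]
  have hd : DiffContOnCl ℂ (fun z : ℂ => z * (ζ * z - r)⁻¹) (ball (0 : ℂ) |1|) := by
    rw [abs_one]
    apply DifferentiableOn.diffContOnCl
    rw [closure_ball _ one_ne_zero]
    intro z hz
    rw [mem_closedBall, dist_zero_right] at hz
    have hd1 : DifferentiableAt ℂ (fun z : ℂ => ζ * z - r) z := by fun_prop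
    have hd2 : DifferentiableAt ℂ (fun z : ℂ => (ζ * z - r)⁻¹) z := hd1.inv (hne z hz)
    exact (differentiableAt_fun_id.mul hd2).differentiableWithinAt
  rw [hd.circleAverage]
  simp

theorem polar_avg (f : ℂ → ℂ) (r : ℝ) :
    ∫ θ in Ioo (-π) π, f (Complex.polarCoord.symm (r, θ)) =
      (2 * π : ℝ) • Real.circleAverage f 0 r := by
  rw [Real.circleAverage_eq_integral_add (-π), smul_smul, mul_inv_cancel₀ (by positivity), one_smul,
    intervalIntegral.integral_comp_add_right (fun θ => f (circleMap 0 r θ)),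
    intervalIntegral.integral_of_le (by linarith [Real.pi_pos]), integral_Ioc_eq_integral_Ioo]
  have h1 : (2 * π + -π : ℝ) = π := by ring
  rw [h1, zero_add]
  congr 1
  funext θ
  congr 1
  rw [Complex.polarCoord_symm_apply, circleMap, zero_add, Complex.exp_mul_I, Complex.ofReal_cos,
    Complex.ofReal_sin]

theorem integrable_inv_ball (ζ : ℂ) (R : ℝ) (hR : 0 < R) :
    IntegrableOn (fun z : ℂ => (ζ - z)⁻¹) (ball 0 R) := by
  refine ⟨(by fun_prop : Measurable fun z : ℂ => (ζ - z)⁻¹).aestronglyMeasurable, ?_⟩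
  rw [hasFiniteIntegral_iff_enorm]
  have h := lint_inv ζ 0 R hR
  have hae : ∀ᵐ z ∂((volume : Measure ℂ).restrict (ball 0 R)), z ≠ ζ :=
    ae_restrict_of_ae (Measure.ae_ne volume ζ)
  rw [lintegral_congr_ae (g := fun z => (‖ζ - z‖ₑ)⁻¹) ?_]
  · exact h.trans_lt ENNReal.ofReal_lt_top
  · filter_upwards [hae] with z hz
    rw [enorm_inv (sub_ne_zero.2 hz.symm)]

/-- Cauchy–Pompeiu for `conj`. -/
theorem pompeiu {ζ : ℂ} {R : ℝ} (h : ‖ζ‖ < R) :
    ∫ z in ball (0 : ℂ) R, (ζ - z)⁻¹ = π * conj ζ := by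
  have hR : 0 < R := (norm_nonneg _).trans_lt h
  have hBm : MeasurableSet (ball (0 : ℂ) R) := isOpen_ball.measurableSet
  set F : ℂ → ℂ := (ball (0 : ℂ) R).indicator (fun z => (ζ - z)⁻¹) with hF
  have hFm : Measurable F := Measurable.indicator (by fun_prop) hBm
  have hFi : Integrable F := (integrable_indicator_iff hBm).2 (integrable_inv_ball ζ R hR)
  rw [← integral_indicator hBm, ← Complex.integral_comp_polarCoord_symm]
  have hps : Measurable fun p : ℝ × ℝ => Complex.polarCoord.symm p := by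
    have : (fun p : ℝ × ℝ => Complex.polarCoord.symm p) =
        fun p : ℝ × ℝ => (p.1 * (Real.cos p.2 + Real.sin p.2 * Complex.I) : ℂ) := by
      funext p; exact Complex.polarCoord_symm_apply p
    rw [this]
    fun_prop
  have hint : IntegrableOn (fun p : ℝ × ℝ => p.1 • F (Complex.polarCoord.symm p))
      (Ioi (0 : ℝ) ×ˢ Ioo (-π) π) (volume.prod volume) := by
    have hm : Measurable fun p : ℝ × ℝ => p.1 • F (Complex.polarCoord.symm p) :=
      measurable_fst.smul (hFm.comp hps)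
    refine ⟨hm.aestronglyMeasurable, ?_⟩
    rw [hasFiniteIntegral_iff_enorm]
    have h1 := hFi.hasFiniteIntegral
    rw [hasFiniteIntegral_iff_enorm, ← Complex.lintegral_comp_polarCoord_symm] at h1
    refine lt_of_le_of_lt (le_of_eq ?_) h1
    apply setLIntegral_congr_fun (measurableSet_Ioi.prod measurableSet_Ioo)
    rintro ⟨r, θ⟩ hp
    have hr : 0 < r := hp.1
    simp only
    rw [enorm_smul, ← ofReal_norm, Real.norm_of_nonneg hr.le, smul_eq_mul]
  have e1 : ∫ p in polarCoord.target, p.1 • F (Complex.polarCoord.symm p) =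
      ∫ r in Ioi (0 : ℝ), ∫ θ in Ioo (-π) π, r • F (Complex.polarCoord.symm (r, θ)) :=
    setIntegral_prod _ hint
  rw [e1]
  -- evaluate the inner integral
  have e2 : ∀ r ∈ Ioi (0 : ℝ), r ≠ ‖ζ‖ → ∫ θ in Ioo (-π) π, r • F (Complex.polarCoord.symm (r, θ)) =
      (Ioc (0 : ℝ) ‖ζ‖).indicator (fun r => (r : ℂ) * (2 * π * ζ⁻¹)) r := by
    intro r hr hrz
    have hr0 : 0 < r := hr
    rw [integral_smul]
    by_cases hrR : r < R
    · have e3 : ∫ θ in Ioo (-π) π, F (Complex.polarCoord.symm (r, θ)) =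
          ∫ θ in Ioo (-π) π, (ζ - Complex.polarCoord.symm (r, θ))⁻¹ := by
        congr 1
        funext θ
        rw [hF, indicator_of_mem]
        rw [mem_ball, dist_zero_right, Complex.norm_polarCoord_symm, abs_of_pos hr0]
        exact hrR
      rw [e3, polar_avg (fun z => (ζ - z)⁻¹) r]
      rcases lt_or_gt_of_ne hrz with h1 | h1
      · rw [avg_in hr0 h1, indicator_of_mem (show r ∈ Ioc (0 : ℝ) ‖ζ‖ from ⟨hr0, h1.le⟩)]
        rw [Complex.real_smul, Complex.real_smul]
        push_cast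
        ring
      · rw [avg_out h1, indicator_of_notMem (fun h2 => not_lt.2 h2.2 h1)]
        simp
    · have e3 : ∀ θ, F (Complex.polarCoord.symm (r, θ)) = 0 := by
        intro θ
        rw [hF, indicator_of_notMem]
        rw [mem_ball, dist_zero_right, Complex.norm_polarCoord_symm, abs_of_pos hr0]
        exact hrR
      rw [indicator_of_notMem (fun h2 => hrR (h2.2.trans_lt h))]
      simp only [e3, integral_zero, smul_zero]
  have e4 : ∫ r in Ioi (0 : ℝ), ∫ θ in Ioo (-π) π, r • F (Complex.polarCoord.symm (r, θ)) =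
      ∫ r in Ioi (0 : ℝ), (Ioc (0 : ℝ) ‖ζ‖).indicator (fun r => (r : ℂ) * (2 * π * ζ⁻¹)) r := by
    apply integral_congr_ae
    have hne : ∀ᵐ r : ℝ ∂(volume.restrict (Ioi (0 : ℝ))), r ≠ ‖ζ‖ :=
      ae_restrict_of_ae (Measure.ae_ne volume _)
    filter_upwards [hne, ae_restrict_mem measurableSet_Ioi] with r h1 h2
    exact e2 r h2 h1
  rw [e4, setIntegral_indicator measurableSet_Ioc]
  have h5 : Ioi (0 : ℝ) ∩ Ioc (0 : ℝ) ‖ζ‖ = Ioc (0 : ℝ) ‖ζ‖ := by
    ext x; simp only [mem_inter_iff, mem_Ioi, mem_Ioc]; tauto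
  rw [h5, integral_mul_const, ← intervalIntegral.integral_of_le (norm_nonneg _)]
  have h6 : ∫ x : ℝ in (0 : ℝ)..‖ζ‖, (x : ℂ) = ((‖ζ‖ ^ 2 / 2 : ℝ) : ℂ) := by
    rw [intervalIntegral.integral_ofReal, integral_id]
    congr 1
    ring
  rw [h6]
  by_cases hζ : ζ = 0
  · simp [hζ]
  · have h7 : (((‖ζ‖ ^ 2 / 2 : ℝ)) : ℂ) = ζ * conj ζ / 2 := by
      rw [Complex.mul_conj, Complex.normSq_eq_norm_sq]
      push_cast
      ring
    rw [h7]
    field_simp

end Pool.Agent.H136R3.WA
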